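import Pool.Agent.Helper72.FQ.Asy

/-!
# Project FQ (MP_0f6f3f_an), target side, part KcE: Cartan decompositions in the coordinates of the simple roots

`kcE`: the choice `Kc b A al` given by functions `kL`, `kR`, `mu` on `autC b` with `g = kL g * ex (∑ i, mu g i • V i) * kR g`, `V` the fundamental coweights (`al i (V j) = δ_ij`). `kcE_gap`: its gaps are the `mu g l`.
-/

set_option autoImplicit false
set_option linter.unusedSectionVars false

open Matrix NormedSpace

namespace Pool.Agent.Helper72.FQ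

open Pool.Agent.Helper96.SA Pool.Agent.Helper96.TO Pool.Agent.Helper35.TZ

variable {L : Type} [LieRing L] [LieAlgebra ℝ L] {N : ℕ} {b : Module.Basis (Fin N) ℝ L}
  {A : Submodule ℝ L} {ι : Type} [Fintype ι] [DecidableEq ι] {al : ι → Module.Dual ℝ A}

theorem al_sum {V : ι → A} (hV : ∀ i j, al i (V j) = if i = j then 1 else 0) (c : ι → ℝ) (i : ι) : al i (∑ j, c j • V j) = c i := by
  rw [map_sum]
  simp_rw [map_smul, hV, smul_eq_mul, mul_ite, mul_one, mul_zero]
  rw [Finset.sum_ite_eq, if_pos (Finset.mem_univ i)]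

/-- The choice of Cartan decompositions given by functions in the coordinates of the simple roots. -/
def kcE {V : ι → A} (hV : ∀ i j, al i (V j) = if i = j then 1 else 0) (kL kR : autC b → autC b) (mu : autC b → ι → ℝ)
    (hL : ∀ g, ((kL g : GL (Fin N) ℝ) : Mat N)ᵀ * ((kL g : GL (Fin N) ℝ) : Mat N) = 1)
    (hR : ∀ g, ((kR g : GL (Fin N) ℝ) : Mat N)ᵀ * ((kR g : GL (Fin N) ℝ) : Mat N) = 1) (h0 : ∀ g i, 0 ≤ mu g i)
    (hk : ∀ g : autC b, (g : GL (Fin N) ℝ) = kL g * ex (TT_to b ((∑ i, mu g i • V i : A) : L)) * kR g) : Kc b A al where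
  kL := kL
  kR := kR
  mu g := ∑ i, mu g i • V i
  spec g := ⟨(kL g).2, (kR g).2, hL g, hR g, fun i => by rw [al_sum hV]; exact h0 g i, hk g⟩

theorem kcE_gap {V : ι → A} (hV : ∀ i j, al i (V j) = if i = j then 1 else 0) (kL kR : autC b → autC b) (mu : autC b → ι → ℝ)
    (hL : ∀ g, ((kL g : GL (Fin N) ℝ) : Mat N)ᵀ * ((kL g : GL (Fin N) ℝ) : Mat N) = 1)
    (hR : ∀ g, ((kR g : GL (Fin N) ℝ) : Mat N)ᵀ * ((kR g : GL (Fin N) ℝ) : Mat N) = 1) (h0 : ∀ g i, 0 ≤ mu g i)
    (hk : ∀ g : autC b, (g : GL (Fin N) ℝ) = kL g * ex (TT_to b ((∑ i, mu g i • V i : A) : L)) * kR g) (g : autC b) (l : ι) :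
    (kcE hV kL kR mu hL hR h0 hk).gap g l = mu g l := al_sum hV _ l

end Pool.Agent.Helper72.FQ
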