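import Pool.Agent.Helper72.FQ.Asy
import Pool.Agent.Helper43.FQ.Tg
import Pool.Agent.Helper84.GD.Defs

/-!
# Project FQ (MP_0f6f3f_an), target side, part Tgt: the target data of a discrete subgroup of `autC b`

`phH`: the complex matrices of the elements of a discrete subgroup `Γ` of `autC b` in an orthonormal weight basis (`PH Γ N`). `tgH`: the target data `Tg` of `Helper43/FQ/Tg.lean` for any choice `κ : Kc b A al` of Cartan decompositions.
`gpL`: the gap functions `GDL.Gp` of `Helper84/GD/Defs.lean`. `kcE`: the choice of Cartan decompositions given by functions `kL, kR, mu` on `autC b` in the language of `GDL.GD`.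
-/

set_option autoImplicit false
set_option linter.unusedSectionVars false

open Matrix NormedSpace Topology Filter

namespace Pool.Agent.Helper72.FQ

open Pool.Agent.Helper96.SA Pool.Agent.Helper96.TO Pool.Agent.Helper35.TZ

/-- The matrices with bounded entries and determinant `± 1` form a compact set. -/
theorem isCompact_det {N : ℕ} (R : ℝ) :
    IsCompact {g : GL (Fin N) ℝ | (∀ i j, |(g : Mat N) i j| ≤ R) ∧ |(g : Mat N).det| = 1} := by
  rw [(isEmbedding_val (N := N)).isInducing.isCompact_iff]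
  have h1 : IsCompact {A : Mat N | ∀ i j, |A i j| ≤ R} := by
    have h : IsCompact (Set.univ.pi fun _ : Fin N => (Set.univ.pi fun _ : Fin N => Metric.closedBall (0 : ℝ) R)) :=
      isCompact_univ_pi fun _ => isCompact_univ_pi fun _ => isCompact_closedBall 0 R
    have e : (Set.univ.pi fun _ : Fin N => (Set.univ.pi fun _ : Fin N => Metric.closedBall (0 : ℝ) R)) =
        {A : Fin N → Fin N → ℝ | ∀ i j, |A i j| ≤ R} := by
      ext A
      simp only [Set.mem_univ_pi, mem_closedBall_zero_iff, Set.mem_ofPred_eq, Real.norm_eq_abs]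
    rw [e] at h
    exact h
  have h2 : IsClosed {A : Mat N | |A.det| = 1} := by
    refine isClosed_eq ?_ continuous_const
    exact continuous_abs.comp (continuous_id.matrix_det)
  have e : (fun g : GL (Fin N) ℝ => (g : Mat N)) ''
      {g : GL (Fin N) ℝ | (∀ i j, |(g : Mat N) i j| ≤ R) ∧ |(g : Mat N).det| = 1} =
      {A : Mat N | ∀ i j, |A i j| ≤ R} ∩ {A : Mat N | |A.det| = 1} := by
    ext A
    constructor
    · rintro ⟨g, hg, rfl⟩
      exact hg
    · rintro ⟨hA1, hA2⟩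
      have hA2 : |A.det| = 1 := hA2
      have hdet : IsUnit A.det := by
        rw [isUnit_iff_ne_zero]
        intro h0
        rw [h0, abs_zero] at hA2
        exact zero_ne_one hA2
      obtain ⟨g, hg⟩ := (Matrix.isUnit_iff_isUnit_det A).2 hdet
      refine ⟨g, ?_, hg⟩
      subst hg
      exact ⟨hA1, hA2⟩
  rw [e]
  exact h1.inter_right h2

theorem abs_det_orth {N : ℕ} {k : Mat N} (h : kᵀ * k = 1) : |k.det| = 1 := by
  have h1 := congrArg Matrix.det h
  rw [Matrix.det_mul, Matrix.det_transpose, Matrix.det_one] at h1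
  have h2 : |k.det| * |k.det| = 1 := by rw [← abs_mul, h1, abs_one]
  nlinarith [abs_nonneg k.det]

variable {L : Type} [LieRing L] [LieAlgebra ℝ L] {N : ℕ} {θ : L ≃ₗ⁅ℝ⁆ L} {b : Module.Basis (Fin N) ℝ L}
  {A : Submodule ℝ L} {ι : Type} [Fintype ι] {al : ι → Module.Dual ℝ A}

/-- The sum of the weights is zero. -/
theorem Wb.wt_sum_zero (T : TD θ b A al) (W : Wb b A al) (a : A) : ∑ k, W.wt k a = 0 := by
  have hF : Module.Finite ℝ L := Module.Finite.of_basis b
  have h1 : ∀ x : L, Matrix.trace (TT_to b x) = LinearMap.trace ℝ L (LieAlgebra.ad ℝ L x) := fun x => by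
    change Matrix.trace (LinearMap.toMatrix b b (LieAlgebra.ad ℝ L x)) = _
    rw [LinearMap.trace_eq_matrix_trace ℝ b]
  have h2 : Matrix.trace (TT_to b (θ (a : L))) = Matrix.trace (TT_to b (a : L)) := by
    rw [h1, h1]
    have e : LieAlgebra.ad ℝ L (θ (a : L)) = θ.toLinearEquiv.conj (LieAlgebra.ad ℝ L (a : L)) := by
      refine LinearMap.ext fun y => ?_
      rw [LinearEquiv.conj_apply]
      change ⁅θ (a : L), y⁆ = θ ⁅(a : L), θ.symm y⁆
      rw [LieEquiv.map_lie, LieEquiv.apply_symm_apply]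
    rw [e, LinearMap.trace_conj']
  have h3 : Matrix.trace (TT_to b (a : L)) = 0 := by
    rw [T.hA.neg a a.2, map_neg, Matrix.trace_neg] at h2
    linarith
  rw [W.dg, Matrix.trace_mul_comm, ← Matrix.mul_assoc, W.h1, Matrix.one_mul, Matrix.trace_diagonal] at h3
  exact h3

/-- The determinants. -/
theorem IsKak.abs_det (T : TD θ b A al) (W : Wb b A al) {g k k' : GL (Fin N) ℝ} {a : A} (h : IsKak b A al g k k' a) :
    |(g : Mat N).det| = 1 := by
  rw [h.eq, Units.val_mul, Units.val_mul, Matrix.det_mul, Matrix.det_mul, abs_mul, abs_mul, abs_det_orth h.ko, abs_det_orth h.ko',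
    ex_coe, W.dg, exp_diag W.O W.h1 W.h2, Matrix.det_mul, Matrix.det_mul, abs_mul, abs_mul, abs_det_orth W.h1, Matrix.det_transpose,
    abs_det_orth W.h1, Matrix.det_diagonal, ← Real.exp_sum, W.wt_sum_zero T, Real.exp_zero, abs_one]
  norm_num

namespace Kc

variable (κ : Kc b A al)

/-- The entries are bounded by the gaps. -/
theorem entry_le (W : Wb b A al) (R : ℝ) : ∃ C : ℝ, ∀ g : autC b, (∀ l, κ.gap g l ≤ R) → ∀ i j, |((g : GL (Fin N) ℝ) : Mat N) i j| ≤ C := by
  obtain ⟨M, hM⟩ : ∃ M, M = ∑ k, ∑ l, |(W.cls k l : ℝ)| * |R| := ⟨_, rfl⟩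
  refine ⟨N * (N * Real.exp M), fun g hg i j => ?_⟩
  have h1 := (κ.spec g).eq
  have h2 : ((ex (TT_to b (κ.mu g : L)) : GL (Fin N) ℝ) : Mat N) = W.O * diagonal (fun k => Real.exp (W.wt k (κ.mu g))) * W.Oᵀ := by
    rw [ex_coe, W.dg, exp_diag W.O W.h1 W.h2]
  have h3 : ∀ k, |Real.exp (W.wt k (κ.mu g))| ≤ Real.exp M := by
    intro k
    rw [Real.abs_exp]
    refine Real.exp_le_exp.2 ?_
    rw [W.eq, LinearMap.sum_apply]
    calc ∑ l, ((W.cls k l : ℝ) • al l) (κ.mu g) ≤ ∑ l, |(W.cls k l : ℝ)| * |R| := by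
          refine Finset.sum_le_sum fun l _ => ?_
          rw [LinearMap.smul_apply, smul_eq_mul]
          have h4 := hg l
          have h5 := κ.gap_nonneg g l
          unfold gap at h4 h5
          calc (W.cls k l : ℝ) * al l (κ.mu g) ≤ |(W.cls k l : ℝ)| * al l (κ.mu g) := mul_le_mul_of_nonneg_right (le_abs_self _) h5
            _ ≤ |(W.cls k l : ℝ)| * |R| := mul_le_mul_of_nonneg_left (h4.trans (le_abs_self _)) (abs_nonneg _)
      _ ≤ M := by
          rw [hM]
          exact Finset.single_le_sum (f := fun k => ∑ l, |(W.cls k l : ℝ)| * |R|) (fun k _ => Finset.sum_nonneg fun l _ => by positivity)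
            (Finset.mem_univ k)
  have h4 : ((g : GL (Fin N) ℝ) : Mat N) = (((κ.kL g : GL (Fin N) ℝ) : Mat N) * W.O) * diagonal (fun k => Real.exp (W.wt k (κ.mu g))) *
      (W.Oᵀ * ((κ.kR g : GL (Fin N) ℝ) : Mat N)) := by
    rw [h1, Units.val_mul, Units.val_mul, h2]
    simp only [Matrix.mul_assoc]
  have o1 : (((κ.kL g : GL (Fin N) ℝ) : Mat N) * W.O)ᵀ * (((κ.kL g : GL (Fin N) ℝ) : Mat N) * W.O) = 1 := by
    rw [Matrix.transpose_mul]
    calc W.Oᵀ * ((κ.kL g : GL (Fin N) ℝ) : Mat N)ᵀ * (((κ.kL g : GL (Fin N) ℝ) : Mat N) * W.O) =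
        W.Oᵀ * (((κ.kL g : GL (Fin N) ℝ) : Mat N)ᵀ * ((κ.kL g : GL (Fin N) ℝ) : Mat N)) * W.O := by simp only [Matrix.mul_assoc]
      _ = 1 := by rw [(κ.spec g).ko, Matrix.mul_one, W.h1]
  have o2 : (W.Oᵀ * ((κ.kR g : GL (Fin N) ℝ) : Mat N))ᵀ * (W.Oᵀ * ((κ.kR g : GL (Fin N) ℝ) : Mat N)) = 1 := by
    rw [Matrix.transpose_mul, Matrix.transpose_transpose]
    calc ((κ.kR g : GL (Fin N) ℝ) : Mat N)ᵀ * W.O * (W.Oᵀ * ((κ.kR g : GL (Fin N) ℝ) : Mat N)) =
        ((κ.kR g : GL (Fin N) ℝ) : Mat N)ᵀ * (W.O * W.Oᵀ) * ((κ.kR g : GL (Fin N) ℝ) : Mat N) := by simp only [Matrix.mul_assoc]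
      _ = 1 := by rw [W.h2, Matrix.mul_one, (κ.spec g).ko']
  rw [h4]
  refine (ent_bd o1 o2 _ i j).trans ?_
  unfold ent
  calc ∑ i, ∑ j, |diagonal (fun k => Real.exp (W.wt k (κ.mu g))) i j| ≤ ∑ _i : Fin N, ∑ _j : Fin N, Real.exp M := by
        refine Finset.sum_le_sum fun i _ => Finset.sum_le_sum fun j _ => ?_
        by_cases hij : i = j
        · subst hij
          rw [Matrix.diagonal_apply_eq]
          exact h3 i
        · rw [Matrix.diagonal_apply_ne _ hij, abs_zero]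
          exact (Real.exp_pos _).le
    _ = N * (N * Real.exp M) := by
        rw [Finset.sum_const, Finset.sum_const, Finset.card_univ, Fintype.card_fin, nsmul_eq_mul, nsmul_eq_mul]

/-- The elements with bounded gaps are in a compact set. -/
theorem exists_compact (T : TD θ b A al) (R : ℝ) : ∃ B : Set (autC b), IsCompact B ∧ ∀ g : autC b, (∀ l, κ.gap g l ≤ R) → g ∈ B := by
  obtain ⟨W⟩ := T.exists_wb
  obtain ⟨C, hC⟩ := κ.entry_le W R
  refine ⟨Subtype.val ⁻¹' {g : GL (Fin N) ℝ | (∀ i j, |(g : Mat N) i j| ≤ C) ∧ |(g : Mat N).det| = 1},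
    (Pool.Agent.Helper66.BD.isAdj_component b).closed.isClosedEmbedding_subtypeVal.isCompact_preimage (isCompact_det C), fun g hg => ?_⟩
  exact ⟨hC g hg, (κ.spec g).abs_det T W⟩

end Kc

/-- Bounded sets of a discrete subgroup are finite. -/
theorem fin_of (T : TD θ b A al) (Γ : Subgroup (autC b)) (hΓ : DiscreteTopology Γ) (C : ℝ) :
    {γ : Γ | ∀ i j, |(((γ : autC b) : GL (Fin N) ℝ) : Mat N) i j| ≤ C}.Finite := by
  obtain ⟨W⟩ := T.exists_wb
  obtain ⟨κ⟩ := T.exists_kc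
  have hcl : IsClosed (Γ : Set (autC b)) := Subgroup.isClosed_of_discrete
  have hemb : IsClosedEmbedding (fun g : Γ => ((g : autC b) : GL (Fin N) ℝ)) :=
    (Pool.Agent.Helper66.BD.isAdj_component b).closed.isClosedEmbedding_subtypeVal.comp hcl.isClosedEmbedding_subtypeVal
  have hK := hemb.isCompact_preimage (isCompact_det (N := N) C)
  refine (hK.finite_of_discrete).subset fun g hg => ⟨fun i j => hg i j, (κ.spec (g : autC b)).abs_det T W⟩

/-- Complexification of real matrices. -/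
noncomputable def cx : Mat N →+* Matrix (Fin N) (Fin N) ℂ := Complex.ofRealHom.mapMatrix

theorem cx_apply (X : Mat N) (i j : Fin N) : cx X i j = ((X i j : ℝ) : ℂ) := rfl

theorem cx_conjTranspose (X : Mat N) : (cx X)ᴴ = cx Xᵀ := by
  ext i j
  rw [Matrix.conjTranspose_apply, cx_apply, cx_apply, Matrix.transpose_apply]
  exact Complex.conj_ofReal _

theorem cx_diagonal (d : Fin N → ℝ) : cx (diagonal d) = diagonal fun i => (d i : ℂ) := by
  ext i j
  rw [cx_apply]
  by_cases hij : i = j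
  · subst hij
    rw [Matrix.diagonal_apply_eq, Matrix.diagonal_apply_eq]
  · rw [Matrix.diagonal_apply_ne _ hij, Matrix.diagonal_apply_ne _ hij, Complex.ofReal_zero]

theorem cx_isU {X : Mat N} (h : Xᵀ * X = 1) : Pool.Agent.Helper84.NI.IsU (cx X) := by
  unfold Pool.Agent.Helper84.NI.IsU
  rw [cx_conjTranspose, ← map_mul, h, map_one]

/-- The matrices in the weight basis of the elements of a discrete subgroup. -/
noncomputable def phH (T : TD θ b A al) (W : Wb b A al) (Γ : Subgroup (autC b)) (hΓ : DiscreteTopology Γ) :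
    Pool.Agent.Helper90.RK.PH Γ N where
  ι γ := cx (hat W.O (((γ : autC b) : GL (Fin N) ℝ) : Mat N))
  det1 γ := by
    obtain ⟨κ⟩ := T.exists_kc
    have h1 := (κ.spec (γ : autC b)).abs_det T W
    have h2 : |(hat W.O (((γ : autC b) : GL (Fin N) ℝ) : Mat N)).det| = 1 := by
      unfold hat
      rw [Matrix.det_mul, Matrix.det_mul, abs_mul, abs_mul, h1, Matrix.det_transpose, abs_det_orth W.h1, mul_one, mul_one]
    have h3 : (cx (hat W.O (((γ : autC b) : GL (Fin N) ℝ) : Mat N))).det = (((hat W.O (((γ : autC b) : GL (Fin N) ℝ) : Mat N)).det : ℝ) : ℂ) :=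
      (RingHom.map_det Complex.ofRealHom _).symm
    rw [h3, Complex.norm_real, Real.norm_eq_abs]
    exact h2
  mul' γ δ := by
    refine ⟨1, norm_one, ?_⟩
    rw [one_smul, ← map_mul, ← hat_mul W.h2]
    rfl
  fin R := by
    refine (fin_of T Γ hΓ (N * (N * (R + 1)))).subset fun γ hγ i j => ?_
    have h0 : ∀ i j, |hat W.O (((γ : autC b) : GL (Fin N) ℝ) : Mat N) i j| ≤ R + 1 := by
      intro i j
      have h1 : Pool.Agent.Helper84.NI.ns (cx (hat W.O (((γ : autC b) : GL (Fin N) ℝ) : Mat N))) ≤ R := hγ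
      have h2 : ‖cx (hat W.O (((γ : autC b) : GL (Fin N) ℝ) : Mat N)) i j‖ ^ 2 ≤
          Pool.Agent.Helper84.NI.ns (cx (hat W.O (((γ : autC b) : GL (Fin N) ℝ) : Mat N))) :=
        (Finset.single_le_sum (f := fun j => ‖cx (hat W.O (((γ : autC b) : GL (Fin N) ℝ) : Mat N)) i j‖ ^ 2) (fun j _ => sq_nonneg _)
          (Finset.mem_univ j)).trans (Finset.single_le_sum
            (f := fun i => ∑ j, ‖cx (hat W.O (((γ : autC b) : GL (Fin N) ℝ) : Mat N)) i j‖ ^ 2) (fun i _ => Finset.sum_nonneg fun j _ => sq_nonneg _)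
          (Finset.mem_univ i))
      rw [cx_apply, Complex.norm_real, Real.norm_eq_abs] at h2
      nlinarith [abs_nonneg (hat W.O (((γ : autC b) : GL (Fin N) ℝ) : Mat N) i j), sq_nonneg (|hat W.O (((γ : autC b) : GL (Fin N) ℝ) : Mat N) i j| - 1)]
    have h1 : (((γ : autC b) : GL (Fin N) ℝ) : Mat N) = W.O * hat W.O (((γ : autC b) : GL (Fin N) ℝ) : Mat N) * W.Oᵀ := by
      unfold hat
      calc (((γ : autC b) : GL (Fin N) ℝ) : Mat N) = (W.O * W.Oᵀ) * (((γ : autC b) : GL (Fin N) ℝ) : Mat N) * (W.O * W.Oᵀ) := by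
            rw [W.h2, Matrix.one_mul, Matrix.mul_one]
        _ = _ := by simp only [Matrix.mul_assoc]
    rw [h1]
    refine (ent_bd W.h1 (by rw [Matrix.transpose_transpose]; exact W.h2) _ i j).trans ?_
    unfold ent
    calc ∑ i, ∑ j, |hat W.O (((γ : autC b) : GL (Fin N) ℝ) : Mat N) i j| ≤ ∑ _i : Fin N, ∑ _j : Fin N, (R + 1) :=
          Finset.sum_le_sum fun i _ => Finset.sum_le_sum fun j _ => h0 i j
      _ = N * (N * (R + 1)) := by
          rw [Finset.sum_const, Finset.sum_const, Finset.card_univ, Fintype.card_fin, nsmul_eq_mul, nsmul_eq_mul]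

namespace Kc

variable (κ : Kc b A al)

/-- The singular value decompositions. -/
noncomputable def suH (T : TD θ b A al) (W : Wb b A al) (Γ : Subgroup (autC b)) (hΓ : DiscreteTopology Γ) :
    Pool.Agent.Helper43.FQ.Su (phH T W Γ hΓ) where
  kL γ := cx (hat W.O ((κ.kL (γ : autC b) : GL (Fin N) ℝ) : Mat N))
  kR γ := cx (hat W.O ((κ.kR (γ : autC b) : GL (Fin N) ℝ) : Mat N))ᵀ
  s γ i := Real.exp (W.wt i (κ.mu (γ : autC b)))
  uL γ := cx_isU (IsKak.hat_orth (κ.spec (γ : autC b)).ko W)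
  uR γ := cx_isU (orthT (IsKak.hat_orth (κ.spec (γ : autC b)).ko' W))
  pos γ i := Real.exp_pos _
  spec γ := by
    rw [← cx_diagonal, cx_conjTranspose, Matrix.transpose_transpose, ← map_mul, ← map_mul]
    change cx (hat W.O (((γ : autC b) : GL (Fin N) ℝ) : Mat N)) = _
    have h1 := congrArg (fun x : GL (Fin N) ℝ => hat W.O (x : Mat N)) (κ.spec (γ : autC b)).eq
    simp only [Units.val_mul, hat_mul W.h2, Wb.hat_ex] at h1
    rw [h1]

theorem suH_m (T : TD θ b A al) (W : Wb b A al) (Γ : Subgroup (autC b)) (hΓ : DiscreteTopology Γ) (g h γ : Γ) :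
    (κ.suH T W Γ hΓ).m g h γ = cx (hat W.O ((κ.km (g : autC b) h γ : GL (Fin N) ℝ) : Mat N)) := by
  rw [κ.hat_km, map_mul, map_mul]
  change (cx (hat W.O ((κ.kR (γ : autC b) : GL (Fin N) ℝ) : Mat N))ᵀ)ᴴ * _ * _ = _
  rw [cx_conjTranspose, Matrix.transpose_transpose]
  rfl

theorem suH_n (T : TD θ b A al) (W : Wb b A al) (Γ : Subgroup (autC b)) (hΓ : DiscreteTopology Γ) (g h γ : Γ) :
    (κ.suH T W Γ hΓ).n g h γ = cx (hat W.O ((κ.kn (g : autC b) h γ : GL (Fin N) ℝ) : Mat N)) := by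
  rw [κ.hat_kn, map_mul, map_mul]
  change (cx (hat W.O ((κ.kL (γ : autC b) : GL (Fin N) ℝ) : Mat N)))ᴴ * _ * _ = _
  rw [cx_conjTranspose]
  rfl

theorem tendsto_of_rate {X : Type} {f g : X → ℝ} {K : ℝ} (h : ∀ x, |f x| ≤ K * Real.exp (-g x)) :
    Tendsto (fun x => (f x : ℂ)) (comap g atTop) (𝓝 0) := by
  have h1 : Tendsto (fun x => K * Real.exp (-g x)) (comap g atTop) (𝓝 0) := by
    have h2 : Tendsto (fun t : ℝ => K * Real.exp (-t)) atTop (𝓝 (K * 0)) := (Real.tendsto_exp_neg_atTop_nhds_zero).const_mul K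
    rw [mul_zero] at h2
    exact h2.comp tendsto_comap
  have h3 : Tendsto (fun x => f x) (comap g atTop) (𝓝 0) := squeeze_zero_norm (fun x => by rw [Real.norm_eq_abs]; exact h x) h1
  have h4 : Tendsto (fun x => ((f x : ℝ) : ℂ)) (comap g atTop) (𝓝 ((0 : ℝ) : ℂ)) := (Complex.continuous_ofReal.tendsto 0).comp h3
  rw [Complex.ofReal_zero] at h4
  exact h4

/-- The gaps of a discrete subgroup. -/
theorem gap_fin (T : TD θ b A al) (Γ : Subgroup (autC b)) (hΓ : DiscreteTopology Γ) (R : ℝ) :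
    {γ : Γ | ∀ l, κ.gap (γ : autC b) l ≤ R}.Finite := by
  obtain ⟨W⟩ := T.exists_wb
  obtain ⟨C, hC⟩ := κ.entry_le W R
  exact (fin_of T Γ hΓ C).subset fun γ hγ => hC _ hγ

/-- The gap functions in the form of `Helper84/GD/Defs.lean`. -/
noncomputable def gpL (T : TD θ b A al) (Γ : Subgroup (autC b)) (hΓ : DiscreteTopology Γ) : Pool.Agent.Helper84.GDL.Gp Γ ι where
  β γ l := κ.gap (γ : autC b) l
  nonneg γ l := κ.gap_nonneg _ l
  shift g h := by
    obtain ⟨C, -, hC⟩ := κ.gap_lip T (g : autC b) (h : autC b)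
    exact ⟨C, fun γ i => hC (γ : autC b) i⟩
  fin R := κ.gap_fin T Γ hΓ R

end Kc

/-- **The target data of a discrete subgroup of `autC b`.** -/
noncomputable def Kc.tgH {r : ℕ} {al : Fin r → Module.Dual ℝ A} (κ : Kc b A al) (T : TD θ b A al) (W : Wb b A al) (Γ : Subgroup (autC b))
    (hΓ : DiscreteTopology Γ) : Pool.Agent.Helper43.FQ.Tg (phH T W Γ hΓ) r where
  gap γ l := κ.gap (γ : autC b) l
  nonneg γ l := κ.gap_nonneg _ l
  gshift g h := by
    obtain ⟨C, -, hC⟩ := κ.gap_lip T (g : autC b) (h : autC b)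
    obtain ⟨n, hn⟩ := exists_nat_ge C
    refine ⟨n, fun γ l => ?_⟩
    have h1 := abs_le.1 (hC (γ : autC b) l)
    constructor
    · have h2 := h1.2
      change κ.gap ((g : autC b)⁻¹ * γ * h) l ≤ _
      linarith
    · have h2 := h1.1
      change _ ≤ κ.gap ((g : autC b)⁻¹ * γ * h) l + _
      linarith
  gfin n := κ.gap_fin T Γ hΓ n
  toSu := κ.suH T W Γ hΓ
  cls := W.cls
  ratio γ i j := by
    change Real.exp (W.wt i (κ.mu (γ : autC b))) = Real.exp (W.wt j (κ.mu (γ : autC b))) * _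
    rw [← Real.exp_add]
    congr 1
    rw [W.eq i, W.eq j, LinearMap.sum_apply, LinearMap.sum_apply, ← Finset.sum_add_distrib]
    refine Finset.sum_congr rfl fun l _ => ?_
    rw [LinearMap.smul_apply, LinearMap.smul_apply, smul_eq_mul, smul_eq_mul]
    change _ = _ + _ * al l (κ.mu (γ : autC b))
    push_cast
    ring
  asyR g h l i j hij := by
    obtain ⟨K, hK⟩ := κ.rateR T W (g : autC b) (h : autC b) hij
    have h1 : (fun γ : Γ => (κ.suH T W Γ hΓ).m g h γ i j) =
        fun γ : Γ => ((hat W.O ((κ.km (g : autC b) h γ : GL (Fin N) ℝ) : Mat N) i j : ℝ) : ℂ) := by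
      funext γ
      rw [κ.suH_m, cx_apply]
    rw [h1]
    exact Kc.tendsto_of_rate fun γ : Γ => hK (γ : autC b)
  asyL h l i j hij := by
    obtain ⟨K, hK⟩ := κ.rateL T W (1 : autC b) (h : autC b) hij
    have h1 : (fun γ : Γ => (κ.suH T W Γ hΓ).n 1 h γ i j) =
        fun γ : Γ => ((hat W.O ((κ.kn (1 : autC b) h γ : GL (Fin N) ℝ) : Mat N) i j : ℝ) : ℂ) := by
      funext γ
      rw [κ.suH_n, cx_apply]
      rfl
    rw [h1]
    exact Kc.tendsto_of_rate fun γ : Γ => hK (γ : autC b)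

/-- The left matrices for general `g`. -/
theorem Kc.asyL' {r : ℕ} {al : Fin r → Module.Dual ℝ A} (κ : Kc b A al) (T : TD θ b A al) (W : Wb b A al) (Γ : Subgroup (autC b))
    (hΓ : DiscreteTopology Γ) (g h : Γ) (l : Fin r) (i j : Fin N) (hij : W.cls i l < W.cls j l) :
    Tendsto (fun γ => (κ.tgH T W Γ hΓ).toSu.n g h γ i j) (comap (fun γ => (κ.tgH T W Γ hΓ).gap γ l) atTop) (𝓝 0) := by
  obtain ⟨K, hK⟩ := κ.rateL T W (g : autC b) (h : autC b) hij
  have h1 : (fun γ : Γ => (κ.suH T W Γ hΓ).n g h γ i j) =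
      fun γ : Γ => ((hat W.O ((κ.kn (g : autC b) h γ : GL (Fin N) ℝ) : Mat N) i j : ℝ) : ℂ) := by
    funext γ
    rw [κ.suH_n, cx_apply]
  change Tendsto (fun γ : Γ => (κ.suH T W Γ hΓ).n g h γ i j) (comap (fun γ : Γ => κ.gap (γ : autC b) l) atTop) (𝓝 0)
  rw [h1]
  exact Kc.tendsto_of_rate fun γ : Γ => hK (γ : autC b)

end Pool.Agent.Helper72.FQ
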