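import Pool.Agent.Helper55.FQ.Defs
import Pool.Agent.Helper72.FQ.Tgt
import Pool.Agent.Helper72.FQ.KcE

/-!
# Project FQ (MP_0f6f3f_an), target side, part Coc: the strata of the target have cocycles with multipliers

From the group structure `Gr θ b A τ al W D` of `Helper55/FQ/Defs.lean`: `Gr.td`: the simple system; `Gr.kc`: the Cartan decompositions of `D`; `Gr.fin`: bounded gaps; `Gr.hasCoc`: `HasCoc` for all strata of a discrete subgroup.
-/

set_option autoImplicit false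
set_option linter.unusedSectionVars false

open Matrix Filter Topology

namespace Pool.Agent.Helper55.FQ

open Pool.Agent.Helper96.SA Pool.Agent.Helper96.TO Pool.Agent.Helper72.FQ
open Pool.Agent.Helper35.TZ (autC isAdj_autC)
open Pool.Agent.Helper84.GDL (GD SI)

variable {L : Type} [LieRing L] [LieAlgebra ℝ L] {N : ℕ} {r : ℕ} {θ : L ≃ₗ⁅ℝ⁆ L} {b : Module.Basis (Fin N) ℝ L} {A : Submodule ℝ L}
  {τ : Module.Dual ℝ A ≃ₗ[ℝ] A} {al : Fin r → Module.Dual ℝ A} {W : Fin r → A} {D : GD (autC b) (Fin r)}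

theorem Gr.td (G : Gr θ b A τ al W D) : TD θ b A al where
  h := G.s.h
  hA := G.s.hA
  li := G.s.li
  rt := G.s.hS.root
  pm := G.cmb

/-- The Cartan decompositions of `D`. -/
noncomputable def Gr.kc (G : Gr θ b A τ al W D) : Kc b A al :=
  kcE G.hW D.kL D.kR D.mu (fun g => (G.K _).1 (D.kL_mem g)) (fun g => (G.K _).1 (D.kR_mem g)) D.mu_nonneg (fun g => by
    have h1 := D.kak g
    have h2 := congrArg (fun x : autC b => (x : GL (Fin N) ℝ)) h1
    rw [G.ea] at h2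
    exact h2)

theorem Gr.kc_gap (G : Gr θ b A τ al W D) (g : autC b) (l : Fin r) : G.kc.gap g l = D.mu g l := kcE_gap _ _ _ _ _ _ _ _ _ _

theorem Gr.fin (G : Gr θ b A τ al W D) (Λ : Subgroup (autC b)) (hΛ : DiscreteTopology Λ) (R : ℝ) :
    {k : Λ | ∀ i, D.mu (k : autC b) i ≤ R}.Finite := by
  refine (G.kc.gap_fin G.td Λ hΛ R).subset fun k hk l => ?_
  rw [G.kc_gap]
  exact hk l

theorem Gp_ext {G : Type} [Group G] {r : ℕ} {A B : Pool.Agent.Helper43.FQ.Gp G r} (h : A.gap = B.gap) : A = B := by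
  cases A
  cases B
  cases h
  rfl

theorem Gr.gp_eq (G : Gr θ b A τ al W D) (Wt : Wb b A al) (Λ : Subgroup (autC b)) (hΛ : DiscreteTopology Λ)
    (hf : ∀ R : ℝ, {k : Λ | ∀ i, D.mu (k : autC b) i ≤ R}.Finite) : (G.kc.tgH G.td Wt Λ hΛ).toGp = gp D Λ hf := by
  refine Gp_ext ?_
  funext γ l
  exact G.kc_gap (γ : autC b) l

/-- **The strata of the target have cocycles with multipliers.** -/
theorem Gr.hasCoc (G : Gr θ b A τ al W D) (Λ : Subgroup (autC b)) (hΛ : DiscreteTopology Λ)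
    (hf : ∀ R : ℝ, {k : Λ | ∀ i, D.mu (k : autC b) i ≤ R}.Finite) (J : Finset (Fin r)) :
    Pool.Agent.Helper96.RK.HasCoc ((gp D Λ hf).reg J) := by
  obtain ⟨Wt⟩ := G.td.exists_wb
  rw [← G.gp_eq Wt Λ hΛ hf]
  exact (G.kc.tgH G.td Wt Λ hΛ).hasCoc J

end Pool.Agent.Helper55.FQ
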