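import Pool.Agent.Helper72.FQ.Ten

/-!
# Project FQ (MP_0f6f3f_an), target side, part Hw: traces of derivations on minors, the highest weight lemma

`DT_PL`: if `X * M = M * Y` then `DT X (PL M) = trace Y • PL M`. `hwU D S v0`: the smallest subspace which contains `v0` and is stable under `D x`, `x ∈ S`. `hwU_stable`: it is stable under all `D z`.
-/

set_option autoImplicit false
set_option linter.unusedSectionVars false

open Matrix NormedSpace

namespace Pool.Agent.Helper72.FQ

variable {n : Type} [Fintype n] [DecidableEq n] {d : Type} [Fintype d] [DecidableEq d]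

theorem det_updateRow_adj (B : Matrix d d ℝ) (k : d) (w : d → ℝ) : (B.updateRow k w).det = ∑ q, w q * B.adjugate q k := by
  rw [← Matrix.cramer_transpose_apply, Matrix.cramer_eq_adjugate_mulVec, ← Matrix.adjugate_transpose]
  simp only [Matrix.mulVec, dotProduct, Matrix.transpose_apply]
  exact Finset.sum_congr rfl fun q _ => mul_comm _ _

theorem DT_PL (X : Matrix n n ℝ) (M : Matrix n d ℝ) (Y : Matrix d d ℝ) (h : X * M = M * Y) :
    DT X (PL M) = Y.trace • PL M := by
  funext I
  have h1 : DT X (PL M) I = ∑ k, ((M.submatrix I id).updateRow k ((X * M) (I k))).det := by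
    rw [DT_apply]
    refine Finset.sum_congr rfl fun k _ => ?_
    have e : ((X * M) (I k)) = ∑ j, (fun j => X (I k) j) j • (fun (j : n) (q : d) => M j q) j := by
      funext q
      simp [Matrix.mul_apply, Finset.sum_apply]
    rw [e]
    have h2 : ∀ (B : Matrix d d ℝ) (u : n → d → ℝ) (c : n → ℝ), (B.updateRow k (∑ j, c j • u j)).det =
        ∑ j, c j * (B.updateRow k (u j)).det := by
      intro B u c
      simp only [det_updateRow_adj, Finset.sum_apply, Pi.smul_apply, smul_eq_mul, Finset.sum_mul, Finset.mul_sum]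
      rw [Finset.sum_comm]
      exact Finset.sum_congr rfl fun i _ => Finset.sum_congr rfl fun j _ => by ring
    refine Eq.trans ?_ (h2 (M.submatrix I id) (fun (j : n) (q : d) => M j q) (fun j => X (I k) j)).symm
    refine Finset.sum_congr rfl fun j _ => ?_
    rw [PL_apply]
    congr 2
    ext m q
    by_cases hm : m = k
    · subst hm
      simp
    · simp [hm]
  rw [h1, h, Pi.smul_apply, PL_apply, smul_eq_mul]
  set B := M.submatrix I id with hB
  have h3 : ∀ k, (M * Y) (I k) = (B * Y) k := fun k => by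
    funext q
    simp [Matrix.mul_apply, hB]
  simp only [h3, det_updateRow_adj]
  have h4 : ∑ k, ∑ q, (B * Y) k q * B.adjugate q k = ((B * Y) * B.adjugate).trace := by
    simp only [Matrix.trace, Matrix.diag_apply, Matrix.mul_apply]
  rw [h4, Matrix.trace_mul_comm, ← Matrix.mul_assoc, Matrix.adjugate_mul, Matrix.smul_mul, Matrix.one_mul, Matrix.trace_smul,
    smul_eq_mul, mul_comm]

section HW

variable {L V : Type} [LieRing L] [LieAlgebra ℝ L] [AddCommGroup V] [Module ℝ V]

/-- The smallest subspace which contains `v0` and is stable under `D x`, `x ∈ S`. -/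
def hwU (D : L →ₗ[ℝ] V →ₗ[ℝ] V) (S : Set L) (v0 : V) : Submodule ℝ V :=
  sInf {U | v0 ∈ U ∧ ∀ x ∈ S, ∀ u ∈ U, D x u ∈ U}

variable {D : L →ₗ[ℝ] V →ₗ[ℝ] V} {S : Set L} {v0 : V}

theorem v0_mem : v0 ∈ hwU D S v0 := by
  rw [hwU, Submodule.mem_sInf]
  exact fun U hU => hU.1

theorem hwU_le {U : Submodule ℝ V} (h0 : v0 ∈ U) (h : ∀ x ∈ S, ∀ u ∈ U, D x u ∈ U) : hwU D S v0 ≤ U :=
  sInf_le ⟨h0, h⟩

theorem hwU_S {x : L} (hx : x ∈ S) {u : V} (hu : u ∈ hwU D S v0) : D x u ∈ hwU D S v0 := by
  rw [hwU, Submodule.mem_sInf] at hu ⊢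
  exact fun U hU => hU.2 x hx u (hu U hU)

/-- **The highest weight lemma**: if `S` and the elements `z` with `D z v0 ∈ ℝ v0` span `L` then the subspace is stable under all `D z`. -/
theorem hwU_stable (hD : ∀ x y v, D ⁅x, y⁆ v = D x (D y v) - D y (D x v))
    (hsp : ∀ K : Submodule ℝ L, S ⊆ K → (∀ z, D z v0 ∈ Submodule.span ℝ {v0} → z ∈ K) → K = ⊤) (z : L) {u : V} (hu : u ∈ hwU D S v0) :
    D z u ∈ hwU D S v0 := by
  let W : Submodule ℝ V :=
    { carrier := {u | u ∈ hwU D S v0 ∧ ∀ z, D z u ∈ hwU D S v0}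
      add_mem' := fun {u v} hu hv => ⟨Submodule.add_mem _ hu.1 hv.1, fun z => by
        rw [map_add]
        exact Submodule.add_mem _ (hu.2 z) (hv.2 z)⟩
      zero_mem' := ⟨Submodule.zero_mem _, fun z => by
        rw [map_zero]
        exact Submodule.zero_mem _⟩
      smul_mem' := fun c u hu => ⟨Submodule.smul_mem _ _ hu.1, fun z => by
        rw [map_smul]
        exact Submodule.smul_mem _ _ (hu.2 z)⟩ }
  have h1 : hwU D S v0 ≤ W := by
    refine hwU_le ⟨v0_mem, fun z => ?_⟩ fun x hx u hu => ⟨hwU_S hx hu.1, fun z => ?_⟩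
    · have h2 := hsp ((hwU D S v0).comap (D.flip v0)) (fun x hx => hwU_S hx v0_mem) (fun z hz => by
        rw [Submodule.mem_comap]
        exact (Submodule.span_singleton_le_iff_mem _ _).2 v0_mem hz)
      have h3 : z ∈ (hwU D S v0).comap (D.flip v0) := by
        rw [h2]
        exact Submodule.mem_top
      exact h3
    · have h2 : D z (D x u) = D ⁅z, x⁆ u + D x (D z u) := by
        rw [hD]
        abel
      rw [h2]
      exact Submodule.add_mem _ (hu.2 _) (hwU_S hx (hu.2 z))
  exact (h1 hu).2 z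

end HW

end Pool.Agent.Helper72.FQ
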