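import Pool.Agent.Helper96.TO.Alg
import Pool.Agent.Helper72.FQ.Hw

/-!
# Project FQ (MP_0f6f3f_an), target side, part Wb: orthonormal weight bases

`TD θ b A al`: a flat `A` of `L` with a simple system `al` (every root is `±` a combination of the `al l` with coefficients in `ℕ`). `Wb b A al`: an orthogonal matrix `O` which diagonalises the `ad a`, `a ∈ A`;
`wt k`: the weights, `cls k l ∈ ℤ`: their coefficients. `hat O X = Oᵀ * X * O`: the matrix in the weight basis. `hat_supp`: an element of the root space of `φ` has nonzero entries only at the `(i, j)` with `wt i = wt j + φ`.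
-/

set_option autoImplicit false
set_option linter.unusedSectionVars false

open Matrix NormedSpace

namespace Pool.Agent.Helper72.FQ

open Pool.Agent.Helper96.SA Pool.Agent.Helper96.TO

variable {L : Type} [LieRing L] [LieAlgebra ℝ L] {N : ℕ} {θ : L ≃ₗ⁅ℝ⁆ L} {b : Module.Basis (Fin N) ℝ L}
  {A : Submodule ℝ L} {ι : Type} [Fintype ι] {al : ι → Module.Dual ℝ A}

/-- A flat with a simple system. -/
structure TD (θ : L ≃ₗ⁅ℝ⁆ L) (b : Module.Basis (Fin N) ℝ L) (A : Submodule ℝ L) (al : ι → Module.Dual ℝ A) : Prop where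
  h : CartanBasis θ b
  hA : MaxFlat θ A
  li : LinearIndependent ℝ al
  rt : ∀ i, al i ∈ rootsL A
  pm : ∀ φ ∈ rootsL A, ∃ c : ι → ℕ, φ = ∑ i, (c i : ℝ) • al i ∨ φ = -∑ i, (c i : ℝ) • al i

/-- The negative of a root is a root. -/
theorem neg_root (hA : MaxFlat θ A) (h : CartanBasis θ b) {φ : Module.Dual ℝ A} (hφ : φ ∈ rootsL A) : -φ ∈ rootsL A := by
  obtain ⟨h0, x, hx0, hx⟩ := hφ
  refine ⟨neg_ne_zero.2 h0, θ x, fun h1 => hx0 ?_, fun a => ?_⟩
  · rw [← h.invol x, h1, map_zero]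
  · have h1 : ⁅θ (a : L), θ x⁆ = φ a • θ x := by
      rw [← LieEquiv.map_lie, hx, map_smul]
    rw [hA.neg a a.2, neg_lie] at h1
    rw [← neg_neg ⁅(a : L), θ x⁆, h1, LinearMap.neg_apply, neg_smul]

theorem TD.neg (T : TD θ b A al) : TD θ b A (fun i => -al i) where
  h := T.h
  hA := T.hA
  li := T.li.neg
  rt i := neg_root T.hA T.h (T.rt i)
  pm φ hφ := by
    obtain ⟨c, hc | hc⟩ := T.pm φ hφ
    · refine ⟨c, Or.inr ?_⟩
      simp only [smul_neg, Finset.sum_neg_distrib, neg_neg]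
      exact hc
    · refine ⟨c, Or.inl ?_⟩
      simp only [smul_neg, Finset.sum_neg_distrib]
      exact hc

/-- An orthonormal weight basis. -/
structure Wb (b : Module.Basis (Fin N) ℝ L) (A : Submodule ℝ L) (al : ι → Module.Dual ℝ A) where
  /-- the orthogonal matrix -/
  O : Mat N
  h1 : Oᵀ * O = 1
  h2 : O * Oᵀ = 1
  /-- the weights -/
  wt : Fin N → Module.Dual ℝ A
  dg : ∀ a : A, TT_to b (a : L) = O * diagonal (fun k => wt k a) * Oᵀ
  /-- the coefficients of the weights -/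
  cls : Fin N → ι → ℤ
  eq : ∀ k, wt k = ∑ l, (cls k l : ℝ) • al l
  sgn : ∀ k, (∀ l, 0 ≤ cls k l) ∨ (∀ l, cls k l ≤ 0)

/-- The matrix in the weight basis. -/
def hat (O X : Mat N) : Mat N := Oᵀ * X * O

theorem hat_mul {O : Mat N} (h2 : O * Oᵀ = 1) (X Y : Mat N) : hat O (X * Y) = hat O X * hat O Y := by
  unfold hat
  calc Oᵀ * (X * Y) * O = Oᵀ * X * (1 * Y) * O := by rw [Matrix.one_mul]; simp only [Matrix.mul_assoc]
    _ = _ := by
      rw [← h2]
      simp only [Matrix.mul_assoc]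

theorem hat_sub (O X Y : Mat N) : hat O (X - Y) = hat O X - hat O Y := by
  unfold hat
  rw [Matrix.mul_sub, Matrix.sub_mul]

theorem hat_add (O X Y : Mat N) : hat O (X + Y) = hat O X + hat O Y := by
  unfold hat
  rw [Matrix.mul_add, Matrix.add_mul]

theorem hat_smul (O : Mat N) (c : ℝ) (X : Mat N) : hat O (c • X) = c • hat O X := by
  unfold hat
  rw [Matrix.mul_smul, Matrix.smul_mul]

theorem hat_one {O : Mat N} (h1 : Oᵀ * O = 1) : hat O 1 = 1 := by
  unfold hat
  rw [Matrix.mul_one, h1]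

theorem hat_transpose (O X : Mat N) : (hat O X)ᵀ = hat O Xᵀ := by
  unfold hat
  rw [Matrix.transpose_mul, Matrix.transpose_mul, Matrix.transpose_transpose, Matrix.mul_assoc]

theorem hat_diag {O : Mat N} (h1 : Oᵀ * O = 1) (D : Mat N) : hat O (O * D * Oᵀ) = D := by
  unfold hat
  calc Oᵀ * (O * D * Oᵀ) * O = (Oᵀ * O) * D * (Oᵀ * O) := by simp only [Matrix.mul_assoc]
    _ = D := by rw [h1, Matrix.one_mul, Matrix.mul_one]

theorem hat_inj {O : Mat N} (h2 : O * Oᵀ = 1) {X Y : Mat N} (h : hat O X = hat O Y) : X = Y := by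
  have h3 : ∀ Z : Mat N, O * hat O Z * Oᵀ = Z := by
    intro Z
    unfold hat
    calc O * (Oᵀ * Z * O) * Oᵀ = (O * Oᵀ) * Z * (O * Oᵀ) := by simp only [Matrix.mul_assoc]
      _ = Z := by rw [h2, Matrix.one_mul, Matrix.mul_one]
  rw [← h3 X, ← h3 Y, h]

theorem hat_exp {O : Mat N} (h1 : Oᵀ * O = 1) (h2 : O * Oᵀ = 1) (X : Mat N) : hat O (exp X) = exp (hat O X) := by
  have h := Matrix.exp_units_conj (⟨Oᵀ, O, h1, h2⟩ : (Mat N)ˣ) X
  exact h.symm

/-- The weight vector. -/
theorem exists_vec (b : Module.Basis (Fin N) ℝ L) {O : Mat N} (h1 : Oᵀ * O = 1) {d : A → Fin N → ℝ}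
    (hd : ∀ a : A, TT_to b (a : L) = O * diagonal (d a) * Oᵀ) (k : Fin N) : ∃ x : L, x ≠ 0 ∧ ∀ a : A, ⁅(a : L), x⁆ = d a k • x := by
  refine ⟨b.equivFun.symm (fun j => O j k), fun h0 => ?_, fun a => ?_⟩
  · have h3 : (fun j => O j k) = 0 := by
      have := congrArg b.equivFun h0
      rwa [LinearEquiv.apply_symm_apply, map_zero] at this
    have h4 : (Oᵀ * O) k k = 1 := by rw [h1, Matrix.one_apply_eq]
    rw [Matrix.mul_apply] at h4
    have h5 : ∀ j, O j k = 0 := fun j => congrFun h3 j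
    simp [h5] at h4
  · apply b.equivFun.injective
    rw [map_smul, ← toLin_TT_to, toLin_coord, LinearEquiv.apply_symm_apply, hd]
    have h3 : (O * diagonal (d a) * Oᵀ) * O = O * diagonal (d a) := by
      rw [Matrix.mul_assoc, h1, Matrix.mul_one]
    funext i
    have h4 : ((O * diagonal (d a) * Oᵀ) *ᵥ fun j => O j k) i = ((O * diagonal (d a) * Oᵀ) * O) i k := rfl
    rw [h4, h3, Matrix.mul_diagonal, Pi.smul_apply, smul_eq_mul, mul_comm]

/-- Existence of an orthonormal weight basis. -/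
theorem TD.exists_wb (T : TD θ b A al) : Nonempty (Wb b A al) := by
  classical
  obtain ⟨O, h1, h2, hO⟩ := simDiag ((A.map (TT_to b) : Submodule ℝ (Mat N)) : Set (Mat N))
    (by
      rintro _ ⟨x, hx, rfl⟩
      exact (TT_symm_iff_to T.h x).2 (T.hA.neg x hx))
    (by
      rintro _ ⟨x, hx, rfl⟩ _ ⟨y, hy, rfl⟩
      exact (TT_comm_iff_to T.h x y).2 (T.hA.abel x hx y hy))
  let wt : Fin N → Module.Dual ℝ A := fun k =>
    { toFun := fun a => hat O (TT_to b (a : L)) k k
      map_add' := fun x y => by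
        rw [Submodule.coe_add, map_add, hat_add, Matrix.add_apply]
      map_smul' := fun c x => by
        rw [Submodule.coe_smul, map_smul, hat_smul, Matrix.smul_apply, RingHom.id_apply] }
  have hdg : ∀ a : A, TT_to b (a : L) = O * diagonal (fun k => wt k a) * Oᵀ := by
    intro a
    obtain ⟨d, hd⟩ := hO (TT_to b (a : L)) ⟨a, a.2, rfl⟩
    have h3 : (fun k => wt k a) = d := by
      funext k
      change hat O (TT_to b (a : L)) k k = d k
      rw [hd, hat_diag h1, Matrix.diagonal_apply_eq]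
    rw [h3]
    exact hd
  have hc : ∀ k, ∃ c : ι → ℤ, wt k = ∑ l, (c l : ℝ) • al l ∧ ((∀ l, 0 ≤ c l) ∨ ∀ l, c l ≤ 0) := by
    intro k
    by_cases h0 : wt k = 0
    · exact ⟨0, by simp [h0], Or.inl fun _ => le_refl _⟩
    · obtain ⟨x, hx0, hx⟩ := exists_vec (A := A) b h1 hdg k
      obtain ⟨c, hc | hc⟩ := T.pm (wt k) ⟨h0, x, hx0, hx⟩
      · exact ⟨fun l => (c l : ℤ), by rw [hc]; simp, Or.inl fun l => Int.natCast_nonneg _⟩
      · refine ⟨fun l => -(c l : ℤ), ?_, Or.inr fun l => by simp⟩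
        rw [hc]
        refine LinearMap.ext fun a => ?_
        simp [LinearMap.sum_apply]
  choose cls hcls using hc
  exact ⟨⟨O, h1, h2, wt, hdg, cls, fun k => (hcls k).1, fun k => (hcls k).2⟩⟩

namespace Wb

variable (W : Wb b A al)

/-- The weight basis for the opposite simple system. -/
def neg : Wb b A (fun i => -al i) where
  O := W.O
  h1 := W.h1
  h2 := W.h2
  wt := W.wt
  dg := W.dg
  cls k l := -W.cls k l
  eq k := by
    rw [W.eq]
    refine Finset.sum_congr rfl fun l _ => LinearMap.ext fun a => ?_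
    simp
  sgn k := by
    rcases W.sgn k with h | h
    · exact Or.inr fun l => neg_nonpos.2 (h l)
    · exact Or.inl fun l => neg_nonneg.2 (h l)

theorem exists_e (k : Fin N) : ∃ x : L, x ≠ 0 ∧ ∀ a : A, ⁅(a : L), x⁆ = W.wt k a • x :=
  exists_vec (A := A) b W.h1 W.dg k

theorem hat_A (a : A) : hat W.O (TT_to b (a : L)) = diagonal (fun k => W.wt k a) := by
  rw [W.dg, hat_diag W.h1]

/-- The support of the matrices of the root vectors. -/
theorem hat_supp {φ : Module.Dual ℝ A} {x : L} (hx : ∀ a : A, ⁅(a : L), x⁆ = φ a • x) {i j : Fin N}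
    (h : hat W.O (TT_to b x) i j ≠ 0) : W.wt i = W.wt j + φ := by
  ext a
  have h3 : hat W.O (TT_to b ⁅(a : L), x⁆) = φ a • hat W.O (TT_to b x) := by
    rw [hx, map_smul, hat_smul]
  rw [TT_lie_to, hat_sub, hat_mul W.h2, hat_mul W.h2, W.hat_A] at h3
  have h4 := congrFun (congrFun h3 i) j
  rw [Matrix.sub_apply, Matrix.diagonal_mul, Matrix.mul_diagonal, Matrix.smul_apply, smul_eq_mul] at h4
  rw [LinearMap.add_apply]
  have h5 : (W.wt i a - W.wt j a - φ a) * hat W.O (TT_to b x) i j = 0 := by linear_combination h4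
  rcases mul_eq_zero.1 h5 with h6 | h6
  · linarith
  · exact absurd h6 h

/-- The coefficients of the weights. -/
theorem cls_eq (hl : LinearIndependent ℝ al) {i j : Fin N} {c : ι → ℤ} (h : W.wt i = W.wt j + ∑ l, (c l : ℝ) • al l) (l : ι) :
    W.cls i l = W.cls j l + c l := by
  rw [W.eq, W.eq, ← Finset.sum_add_distrib] at h
  have h3 : ∑ l, ((W.cls i l : ℝ) - (W.cls j l + c l)) • al l = 0 := by
    rw [← sub_eq_zero, ← Finset.sum_sub_distrib] at h
    rw [← h]
    refine Finset.sum_congr rfl fun l _ => LinearMap.ext fun a => ?_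
    simp only [LinearMap.smul_apply, LinearMap.sub_apply, LinearMap.add_apply, smul_eq_mul]
    ring
  have h4 := Fintype.linearIndependent_iff.1 hl _ h3 l
  have h5 : (W.cls i l : ℝ) = ((W.cls j l + c l : ℤ) : ℝ) := by
    push_cast
    linarith
  exact_mod_cast h5

/-- The weight vectors span `L`. -/
theorem span_top (K : Submodule ℝ L) (hK : ∀ k x, (∀ a : A, ⁅(a : L), x⁆ = W.wt k a • x) → x ∈ K) : K = ⊤ := by
  rw [eq_top_iff]
  intro x _
  have h3 : x = ∑ k, (W.Oᵀ *ᵥ b.equivFun x) k • b.equivFun.symm (fun j => W.O j k) := by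
    apply b.equivFun.injective
    rw [map_sum]
    simp only [map_smul, LinearEquiv.apply_symm_apply]
    have h4 : W.O *ᵥ (W.Oᵀ *ᵥ b.equivFun x) = b.equivFun x := by rw [Matrix.mulVec_mulVec, W.h2, Matrix.one_mulVec]
    obtain ⟨v, hv⟩ : ∃ v, v = W.Oᵀ *ᵥ b.equivFun x := ⟨_, rfl⟩
    rw [← hv] at h4 ⊢
    rw [← h4]
    funext i
    rw [Finset.sum_apply]
    change ∑ k, W.O i k * v k = ∑ k, v k * W.O i k
    exact Finset.sum_congr rfl fun k _ => mul_comm _ _
  rw [h3]
  refine K.sum_mem fun k _ => K.smul_mem _ (hK k _ fun a => ?_)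
  apply b.equivFun.injective
  rw [map_smul, ← toLin_TT_to, toLin_coord, LinearEquiv.apply_symm_apply, W.dg]
  have h5 : (W.O * diagonal (fun k => W.wt k a) * W.Oᵀ) * W.O = W.O * diagonal (fun k => W.wt k a) := by
    rw [Matrix.mul_assoc, W.h1, Matrix.mul_one]
  funext i
  have h6 : ((W.O * diagonal (fun k => W.wt k a) * W.Oᵀ) *ᵥ fun j => W.O j k) i =
    ((W.O * diagonal (fun k => W.wt k a) * W.Oᵀ) * W.O) i k := rfl
  rw [h6, h5, Matrix.mul_diagonal, Pi.smul_apply, smul_eq_mul, mul_comm]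

end Wb

end Pool.Agent.Helper72.FQ
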