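import Pool.Agent.Helper96.SA.Conj
import Pool.Agent.Helper96.SA.Pol
import Pool.Agent.Helper72.FQ.Wb

/-!
# Project FQ (MP_0f6f3f_an), target side, part Kak: the Cartan decomposition with the closed chamber

`TD.conj_chamber`: every symmetric element of the Lie algebra is conjugate by an orthogonal element of `G` to some `TT_to b a`, `a ∈ A`, `al i a ≥ 0` for all `i`. PROOF: maximise `trace (k X kᵀ H)` over the compact group, `H` in the open
chamber; first order condition: `k X kᵀ` commutes with `H`; second order condition in the direction `x + θ x`, `x` in the root space of `al i`: `al i a * al i H ≥ 0`.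
`TD.exists_kak`: `g = k * ex (TT_to b a) * k'`.
-/

set_option autoImplicit false
set_option linter.unusedSectionVars false

open Matrix NormedSpace Filter Topology

namespace Pool.Agent.Helper72.FQ

open Pool.Agent.Helper96.SA Pool.Agent.Helper96.TO

/-- The second order condition at a maximum. -/
theorem snd_order {f f' : ℝ → ℝ} {c : ℝ} (h : ∀ t, HasDerivAt f (f' t) t) (h' : HasDerivAt f' c 0) (hm : ∀ t, f t ≤ f 0) : c ≤ 0 := by
  by_contra hc
  rw [not_le] at hc
  have hd : deriv f = f' := funext fun t => (h t).deriv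
  have h0 : f' 0 = 0 := by
    have h1 : IsLocalMax f 0 := Eventually.of_forall hm
    exact h1.hasDerivAt_eq_zero (h 0)
  have h2 : IsLocalMin f 0 := by
    refine isLocalMin_of_deriv_deriv_pos ?_ ?_ (h 0).continuousAt
    · rw [hd, h'.deriv]
      exact hc
    · rw [hd, h0]
  have h3 : f =ᶠ[𝓝 0] fun _ => f 0 := by
    filter_upwards [h2] with t ht
    exact le_antisymm (hm t) ht
  have h4 : deriv (deriv f) 0 = 0 := by
    have h5 : deriv f =ᶠ[𝓝 0] fun _ => 0 := by
      have h6 := h3.deriv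
      simpa using h6
    rw [h5.deriv_eq]
    simp
  rw [hd, h'.deriv] at h4
  exact hc.ne' h4

variable {N : ℕ}

theorem hasDerivAt_conj (Z Y H : Mat N) (t : ℝ) : HasDerivAt (fun t : ℝ => Matrix.trace (exp (t • Z) * Y * exp (t • (-Z)) * H))
    (Matrix.trace (exp (t • Z) * (Z * Y - Y * Z) * exp (t • (-Z)) * H)) t := by
  open scoped Matrix.Norms.Operator in
  have h1 : HasDerivAt (fun t : ℝ => exp (t • Z)) (exp (t • Z) * Z) t := hasDerivAt_exp_smul_const Z t
  have h2 : HasDerivAt (fun t : ℝ => exp (t • (-Z))) (-Z * exp (t • (-Z))) t := hasDerivAt_exp_smul_const' (-Z) t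
  have h3 := (h1.mul_const Y).mul h2
  have e1 : exp (t • Z) * Z * Y * exp (t • (-Z)) + exp (t • Z) * Y * (-Z * exp (t • (-Z))) =
      exp (t • Z) * (Z * Y - Y * Z) * exp (t • (-Z)) := by
    noncomm_ring
  rw [e1] at h3
  let L : Mat N →ₗ[ℝ] ℝ := (Matrix.traceLinearMap (Fin N) ℝ ℝ).comp (LinearMap.mulRight ℝ H)
  have h4 : HasFDerivAt (fun A : Mat N => L A) (LinearMap.toContinuousLinearMap L) (exp (t • Z) * Y * exp (t • (-Z))) :=
    (LinearMap.toContinuousLinearMap L).hasFDerivAt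
  exact h4.comp_hasDerivAt t h3

variable {L : Type} [LieRing L] [LieAlgebra ℝ L] {θ : L ≃ₗ⁅ℝ⁆ L} {b : Module.Basis (Fin N) ℝ L}
  {A : Submodule ℝ L} {ι : Type} [Fintype ι] {al : ι → Module.Dual ℝ A} {G : Subgroup (GL (Fin N) ℝ)}

/-- A linearly independent family of functionals takes any values. -/
theorem exists_vals [FiniteDimensional ℝ A] (hl : LinearIndependent ℝ al) (v : ι → ℝ) : ∃ H : A, ∀ i, al i H = v i := by
  classical
  have hsurj : Function.Surjective (LinearMap.pi al) := by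
    rw [← LinearMap.range_eq_top]
    by_contra hne
    obtain ⟨f, hf, hf2⟩ := Submodule.exists_le_ker_of_lt_top _ (lt_top_iff_ne_top.2 hne)
    apply hf
    have h1 : ∑ i, f (Pi.single i 1) • al i = 0 := by
      ext a
      have h2 : f (LinearMap.pi al a) = 0 := hf2 (LinearMap.mem_range_self _ a)
      rw [LinearMap.sum_apply, LinearMap.zero_apply, ← h2]
      have h3 : LinearMap.pi al a = ∑ i, (al i a) • (Pi.single i (1 : ℝ) : ι → ℝ) := by
        ext k
        simp [Finset.sum_apply, Pi.single_apply]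
      rw [h3, map_sum]
      refine Finset.sum_congr rfl fun i _ => ?_
      rw [map_smul, LinearMap.smul_apply, smul_eq_mul, smul_eq_mul, mul_comm]
    have h4 := Fintype.linearIndependent_iff.1 hl _ h1
    refine LinearMap.pi_ext' fun i => ?_
    ext
    simpa using h4 i
  obtain ⟨H, hH⟩ := hsurj v
  exact ⟨H, fun i => congrFun hH i⟩

/-- The centraliser of an element of the open chamber commutes with the flat. -/
theorem Wb.comm_of (W : Wb b A al) {H0 : A} (h0 : ∀ i, 0 < al i H0) {x : L} (hx : ⁅(H0 : L), x⁆ = 0) (a : A) : ⁅(a : L), x⁆ = 0 := by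
  have key : ∀ a : A, b.equivFun ⁅(a : L), x⁆ = W.O *ᵥ (fun k => W.wt k a * (W.Oᵀ *ᵥ b.equivFun x) k) := by
    intro a
    rw [← toLin_TT_to, toLin_coord, W.dg, ← Matrix.mulVec_mulVec, ← Matrix.mulVec_mulVec]
    congr 1
    funext k
    rw [Matrix.mulVec_diagonal]
  have h1 : (fun k => W.wt k H0 * (W.Oᵀ *ᵥ b.equivFun x) k) = 0 := by
    have h2 := key H0
    rw [hx, map_zero] at h2
    have h3 : W.Oᵀ *ᵥ (W.O *ᵥ (fun k => W.wt k H0 * (W.Oᵀ *ᵥ b.equivFun x) k)) = 0 := by
      rw [← h2, Matrix.mulVec_zero]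
    rwa [Matrix.mulVec_mulVec, W.h1, Matrix.one_mulVec] at h3
  have h2 : ∀ k, W.wt k H0 = 0 → W.wt k = 0 := by
    intro k hk
    rw [W.eq k, LinearMap.sum_apply] at hk
    have h3 : ∀ l, W.cls k l = 0 := by
      rcases W.sgn k with h | h
      · have h4 := (Finset.sum_eq_zero_iff_of_nonneg (fun l _ => by
          rw [LinearMap.smul_apply, smul_eq_mul]
          exact mul_nonneg (by exact_mod_cast h l) (h0 l).le)).1 hk
        intro l
        have h5 := h4 l (Finset.mem_univ l)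
        rw [LinearMap.smul_apply, smul_eq_mul] at h5
        rcases mul_eq_zero.1 h5 with h6 | h6
        · exact_mod_cast h6
        · exact absurd h6 (h0 l).ne'
      · have h4 := (Finset.sum_eq_zero_iff_of_nonpos (fun l _ => by
          rw [LinearMap.smul_apply, smul_eq_mul]
          exact mul_nonpos_of_nonpos_of_nonneg (by exact_mod_cast h l) (h0 l).le)).1 hk
        intro l
        have h5 := h4 l (Finset.mem_univ l)
        rw [LinearMap.smul_apply, smul_eq_mul] at h5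
        rcases mul_eq_zero.1 h5 with h6 | h6
        · exact_mod_cast h6
        · exact absurd h6 (h0 l).ne'
    rw [W.eq k]
    refine Finset.sum_eq_zero fun l _ => ?_
    rw [h3 l, Int.cast_zero, zero_smul]
  apply b.equivFun.injective
  rw [key a, map_zero]
  have h3 : (fun k => W.wt k a * (W.Oᵀ *ᵥ b.equivFun x) k) = 0 := by
    funext k
    have h4 := congrFun h1 k
    rw [Pi.zero_apply] at h4 ⊢
    rcases mul_eq_zero.1 h4 with h5 | h5
    · rw [h2 k h5, LinearMap.zero_apply, zero_mul]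
    · rw [h5, mul_zero]
  rw [h3, Matrix.mulVec_zero]

/-- **Symmetric elements are conjugate into the closed chamber.** -/
theorem TD.conj_chamber (T : TD θ b A al) (hG : IsAdj b G) {X : Mat N} (hX : X ∈ lie G) (hs : Xᵀ = X) :
    ∃ k ∈ G, (k : Mat N)ᵀ * (k : Mat N) = 1 ∧ ∃ a : A, (∀ i, 0 ≤ al i a) ∧ (k : Mat N) * X * (k : Mat N)ᵀ = TT_to b (a : L) := by
  have hF : Module.Finite ℝ L := Module.Finite.of_basis b
  obtain ⟨W⟩ := T.exists_wb
  obtain ⟨H0, hH0⟩ := exists_vals T.li fun _ => 1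
  have hlie : lie G = lie (autG b) := lie_eq' hG.aut (lie_sub T.h hG)
  obtain ⟨H, hHd⟩ : ∃ H, H = TT_to b (H0 : L) := ⟨_, rfl⟩
  have cval : Continuous (fun g : GL (Fin N) ℝ => (g : Mat N)) := isEmbedding_val.continuous
  have cf : Continuous fun k : GL (Fin N) ℝ => Matrix.trace ((k : Mat N) * X * (k : Mat N)ᵀ * H) :=
    (((cval.matrix_mul continuous_const).matrix_mul cval.matrix_transpose).matrix_mul
      continuous_const).matrix_trace
  obtain ⟨k, ⟨hkG, hk1⟩, hkm⟩ := (isCompact_orth hG.closed).exists_isMaxOn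
    ⟨1, G.one_mem, by rw [Units.val_one, Matrix.transpose_one, Matrix.one_mul]⟩ cf.continuousOn
  have hkinv : ((k⁻¹ : GL (Fin N) ℝ) : Mat N) = (k : Mat N)ᵀ := Units.inv_eq_of_mul_eq_one_left hk1
  refine ⟨k, hkG, hk1, ?_⟩
  have hX' := lie_conj hkG hX
  rw [hkinv] at hX'
  obtain ⟨X', hXd⟩ : ∃ X' : Mat N, X' = (k : Mat N) * X * (k : Mat N)ᵀ := ⟨_, rfl⟩
  rw [← hXd] at hX' ⊢
  have hs' : X'ᵀ = X' := by
    rw [hXd, Matrix.transpose_mul, Matrix.transpose_mul, Matrix.transpose_transpose, hs,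
      Matrix.mul_assoc]
  have hHG : H ∈ lie G := by
    rw [hHd, hlie]
    exact TT_mem_to b _
  have hHs : Hᵀ = H := by
    rw [hHd]
    exact (TT_symm_iff_to T.h _).2 (T.hA.neg _ H0.2)
  -- the maximum property
  have hle : ∀ Z ∈ lie G, Zᵀ = -Z → ∀ t : ℝ, Matrix.trace (exp (t • Z) * X' * exp (t • (-Z)) * H) ≤
      Matrix.trace (exp ((0 : ℝ) • Z) * X' * exp ((0 : ℝ) • (-Z)) * H) := by
    intro Z hZ hZt t
    have e0 : exp ((0 : ℝ) • Z) * X' * exp ((0 : ℝ) • (-Z)) * H = X' * H := by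
      rw [zero_smul, zero_smul, exp_zero, Matrix.mul_one, Matrix.one_mul]
    rw [e0]
    have e1 : ((ex (t • Z) : GL (Fin N) ℝ) : Mat N)ᵀ = exp (t • (-Z)) := by
      rw [ex_transpose, ex_coe, Matrix.transpose_smul, hZt]
    have e2 : exp (t • (-Z)) * exp (t • Z) = 1 := by
      rw [smul_neg, ← ex_coe, ← ex_coe, ← Units.val_mul, ex_neg, inv_mul_cancel, Units.val_one]
    have hmem : (ex (t • Z) * k) ∈ {k : GL (Fin N) ℝ | k ∈ G ∧ (k : Mat N)ᵀ * (k : Mat N) = 1} := by
      refine ⟨G.mul_mem (mem_lie.1 hZ t) hkG, ?_⟩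
      rw [Units.val_mul, Matrix.transpose_mul, e1, ex_coe]
      calc (k : Mat N)ᵀ * exp (t • (-Z)) * (exp (t • Z) * (k : Mat N))
          = (k : Mat N)ᵀ * (exp (t • (-Z)) * exp (t • Z)) * (k : Mat N) := by
            simp only [Matrix.mul_assoc]
        _ = 1 := by rw [e2, Matrix.mul_one, hk1]
    have h1 := hkm hmem
    have h2 : Matrix.trace (((ex (t • Z) * k : GL (Fin N) ℝ) : Mat N) * X *
        ((ex (t • Z) * k : GL (Fin N) ℝ) : Mat N)ᵀ * H) ≤ Matrix.trace (X' * H) := by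
      rw [hXd]
      exact h1
    rw [Units.val_mul, Matrix.transpose_mul, e1, ex_coe] at h2
    have e3 : exp (t • Z) * (k : Mat N) * X * ((k : Mat N)ᵀ * exp (t • (-Z))) * H =
        exp (t • Z) * X' * exp (t • (-Z)) * H := by
      rw [hXd]
      simp only [Matrix.mul_assoc]
    rw [e3] at h2
    exact h2
  -- first order
  have hcm : X' * H = H * X' := by
    obtain ⟨Z, hZd⟩ : ∃ Z : Mat N, Z = X' * H - H * X' := ⟨_, rfl⟩
    have hZ : Z ∈ lie G := by
      rw [hZd]
      exact lie_bracket hG.closed hX' hHG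
    have hZt : Zᵀ = -Z := by
      rw [hZd, Matrix.transpose_sub, Matrix.transpose_mul, Matrix.transpose_mul, hs', hHs, neg_sub]
    have hloc : IsLocalMax (fun t : ℝ => Matrix.trace (exp (t • Z) * X' * exp (t • (-Z)) * H)) 0 :=
      Eventually.of_forall fun t => hle Z hZ hZt t
    have h0 := hloc.hasDerivAt_eq_zero (hasDerivAt_conj Z X' H 0)
    rw [zero_smul, zero_smul, exp_zero, Matrix.one_mul, Matrix.mul_one] at h0
    have h1 : Matrix.trace (Z * Z) = 0 := by
      have e1 : Matrix.trace (X' * Z * H) = Matrix.trace (Z * (H * X')) := by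
        rw [Matrix.mul_assoc, Matrix.trace_mul_comm, Matrix.mul_assoc]
      have e2 : Matrix.trace (Z * Z) = Matrix.trace ((Z * X' - X' * Z) * H) := by
        rw [Matrix.sub_mul, Matrix.trace_sub, e1]
        nth_rewrite 2 [hZd]
        rw [Matrix.mul_sub, Matrix.trace_sub, Matrix.mul_assoc]
      rw [e2, h0]
    have h2 : Z = 0 := by
      have e1 : Matrix.trace (Zᵀ * Z) = 0 := by
        rw [hZt, Matrix.neg_mul, Matrix.trace_neg, h1, neg_zero]
      have e2 : Matrix.trace (Zᴴ * Z) = 0 := by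
        rw [Matrix.conjTranspose_eq_transpose_of_trivial, e1]
      exact Matrix.trace_conjTranspose_mul_self_eq_zero_iff.1 e2
    rw [← sub_eq_zero, ← hZd, h2]
  obtain ⟨x, hx⟩ : ∃ x, TT_to b x = X' := TT_surj_to T.h (hlie ▸ hX')
  have hxθ : θ x = -x := (TT_symm_iff_to T.h x).1 (by rw [hx]; exact hs')
  have hxH : ⁅x, (H0 : L)⁆ = 0 := (TT_comm_iff_to T.h x H0).1 (by rw [hx, ← hHd]; exact hcm)
  have hxA : x ∈ A := by
    refine T.hA.max x hxθ fun y hy => ?_
    have h1 := W.comm_of (H0 := H0) (fun i => by rw [hH0]; exact one_pos) (x := x) (by rw [← lie_skew, hxH, neg_zero]) ⟨y, hy⟩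
    rw [← lie_skew, h1, neg_zero]
  refine ⟨⟨x, hxA⟩, fun i => ?_, hx.symm⟩
  -- second order
  obtain ⟨-, e, he0, he⟩ := T.rt i
  obtain ⟨E, hE⟩ : ∃ E, E = TT_to b e := ⟨_, rfl⟩
  have hEt : Eᵀ = -TT_to b (θ e) := by rw [hE]; exact TT_transpose_to T.h e
  obtain ⟨Z, hZd⟩ : ∃ Z : Mat N, Z = E - Eᵀ := ⟨_, rfl⟩
  have hZ : Z ∈ lie G := by
    rw [hZd, hEt, hE, hlie, sub_neg_eq_add, ← map_add]
    exact TT_mem_to b _
  have hZt : Zᵀ = -Z := by
    rw [hZd, Matrix.transpose_sub, Matrix.transpose_transpose, neg_sub]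
  have hcE : ∀ a : A, TT_to b (a : L) * E - E * TT_to b (a : L) = al i a • E := by
    intro a
    rw [hE, ← TT_lie_to, he a, map_smul]
  have hcEt : ∀ a : A, TT_to b (a : L) * Eᵀ - Eᵀ * TT_to b (a : L) = -(al i a • Eᵀ) := by
    intro a
    have h1 := congrArg Matrix.transpose (hcE a)
    rw [Matrix.transpose_sub, Matrix.transpose_mul, Matrix.transpose_mul, Matrix.transpose_smul,
      (TT_symm_iff_to T.h _).2 (T.hA.neg _ a.2)] at h1
    rw [← h1]
    abel
  obtain ⟨a, ha⟩ : ∃ a : A, a = ⟨x, hxA⟩ := ⟨_, rfl⟩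
  have hXa : X' = TT_to b (a : L) := by rw [ha]; exact hx.symm
  rw [← ha]
  have hB1 : Z * X' - X' * Z = -(al i a • (E + Eᵀ)) := by
    have h1 := hcE a
    have h2 := hcEt a
    rw [← hXa] at h1 h2
    calc Z * X' - X' * Z = -(X' * E - E * X') + (X' * Eᵀ - Eᵀ * X') := by
          rw [hZd]
          noncomm_ring
      _ = _ := by
          rw [h1, h2, smul_add]
          abel
  have hB2 : Z * (Z * X' - X' * Z) - (Z * X' - X' * Z) * Z = -((2 * al i a) • (E * Eᵀ - Eᵀ * E)) := by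
    rw [hB1, hZd, Matrix.mul_neg, Matrix.neg_mul, Matrix.mul_smul, Matrix.smul_mul, neg_sub_neg, ← smul_sub, mul_smul,
      smul_comm (2 : ℝ), ← smul_neg]
    congr 1
    rw [two_smul]
    noncomm_ring
  have h3 := snd_order (f := fun t : ℝ => Matrix.trace (exp (t • Z) * X' * exp (t • (-Z)) * H))
    (fun t => hasDerivAt_conj Z X' H t) (hasDerivAt_conj Z (Z * X' - X' * Z) H 0) (hle Z hZ hZt)
  rw [zero_smul, zero_smul, exp_zero, Matrix.one_mul, Matrix.mul_one, hB2, Matrix.neg_mul, Matrix.trace_neg, Matrix.smul_mul,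
    Matrix.trace_smul, smul_eq_mul] at h3
  have h4 : Matrix.trace ((E * Eᵀ - Eᵀ * E) * H) = Matrix.trace (Eᵀ * E) := by
    have h5 := hcE H0
    rw [hH0, one_smul, ← hHd] at h5
    rw [Matrix.sub_mul, Matrix.trace_sub]
    have e1 : Matrix.trace (E * Eᵀ * H) = Matrix.trace (Eᵀ * (H * E)) := by
      rw [Matrix.mul_assoc, Matrix.trace_mul_comm, Matrix.mul_assoc]
    rw [e1, Matrix.mul_assoc, ← Matrix.trace_sub, ← Matrix.mul_sub, h5]
  have h5 : 0 < Matrix.trace (Eᵀ * E) := by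
    have h6 : 0 ≤ Matrix.trace (Eᵀ * E) := by
      refine Finset.sum_nonneg fun p _ => ?_
      rw [Matrix.diag_apply, Matrix.mul_apply]
      exact Finset.sum_nonneg fun q _ => mul_self_nonneg _
    refine lt_of_le_of_ne h6 fun h7 => he0 ?_
    have h8 : Matrix.trace (Eᴴ * E) = 0 := by
      rw [Matrix.conjTranspose_eq_transpose_of_trivial]
      exact h7.symm
    have h9 := Matrix.trace_conjTranspose_mul_self_eq_zero_iff.1 h8
    apply TT_inj_to T.h
    rw [← hE, h9, map_zero]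
  rw [h4] at h3
  nlinarith

/-- **The Cartan decomposition with the closed chamber.** -/
theorem TD.exists_kak (T : TD θ b A al) (hG : IsAdj b G) {g : GL (Fin N) ℝ} (hg : g ∈ G) :
    ∃ k k' : GL (Fin N) ℝ, k ∈ G ∧ k' ∈ G ∧ (k : Mat N)ᵀ * (k : Mat N) = 1 ∧ (k' : Mat N)ᵀ * (k' : Mat N) = 1 ∧
      ∃ a : A, (∀ i, 0 ≤ al i a) ∧ g = k * ex (TT_to b (a : L)) * k' := by
  have hS := selfAdj_of_aut T.h hG
  obtain ⟨X, hX, hXs, k, hk, hkk, hgk⟩ := polar hS hg
  obtain ⟨k', hk', hkk', a, ha, hXa⟩ := T.conj_chamber hG hX hXs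
  have hinv : ((k'⁻¹ : GL (Fin N) ℝ) : Mat N) = (k' : Mat N)ᵀ := Units.inv_eq_of_mul_eq_one_left hkk'
  have hex : k' * ex X * k'⁻¹ = ex (TT_to b (a : L)) := by
    rw [← hXa, ← hinv]
    exact (ex_conj k' X).symm
  refine ⟨k * k'⁻¹, k', G.mul_mem hk (G.inv_mem hk'), hk', ?_, hkk', a, ha, ?_⟩
  · rw [Units.val_mul, hinv, Matrix.transpose_mul, Matrix.transpose_transpose]
    calc (k' : Mat N) * (k : Mat N)ᵀ * ((k : Mat N) * (k' : Mat N)ᵀ) = (k' : Mat N) * ((k : Mat N)ᵀ * (k : Mat N)) * (k' : Mat N)ᵀ := by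
          simp only [Matrix.mul_assoc]
      _ = 1 := by rw [hkk, Matrix.mul_one, mul_eq_one_comm.1 hkk']
  · rw [← hex, hgk]
    group

end Pool.Agent.Helper72.FQ
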