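import Pool.Agent.Helper72.FQ.Top
import Pool.Agent.Helper72.FQ.Kak

/-!
# Project FQ (MP_0f6f3f_an), target side, part Asy: the Lipschitz property and the rates for `autC b`

`Kc b A al`: a choice of Cartan decompositions `g = kL g * ex (mu g) * kR g` of the elements of `autC b` (any choice). `gap g l = al l (mu g)`. `gap_lip`: the gaps of `γ` and `g⁻¹ γ h` differ at most by a constant `C(g, h)`.
`kn g h γ = (kL γ)⁻¹ * g * kL (g⁻¹ γ h)`, `km g h γ = kR γ * h * (kR (g⁻¹ γ h))⁻¹`. `rateL`, `rateR`: the entries on the wrong side of the filtration of the node `l` are `O(exp (-gap γ l))`.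
-/

set_option autoImplicit false
set_option linter.unusedSectionVars false

open Matrix NormedSpace

namespace Pool.Agent.Helper72.FQ

open Pool.Agent.Helper96.SA Pool.Agent.Helper96.TO Pool.Agent.Helper35.TZ

variable {L : Type} [LieRing L] [LieAlgebra ℝ L] {N : ℕ} {θ : L ≃ₗ⁅ℝ⁆ L} {b : Module.Basis (Fin N) ℝ L}
  {A : Submodule ℝ L} {ι : Type} [Fintype ι] {al : ι → Module.Dual ℝ A}

/-- A choice of Cartan decompositions. -/
structure Kc (b : Module.Basis (Fin N) ℝ L) (A : Submodule ℝ L) (al : ι → Module.Dual ℝ A) where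
  /-- left part -/
  kL : autC b → autC b
  /-- right part -/
  kR : autC b → autC b
  /-- the Cartan projection -/
  mu : autC b → A
  spec : ∀ g : autC b, IsKak b A al (g : GL (Fin N) ℝ) (kL g : GL (Fin N) ℝ) (kR g : GL (Fin N) ℝ) (mu g)

theorem TD.exists_kc (T : TD θ b A al) : Nonempty (Kc b A al) := by
  have h : ∀ g : autC b, ∃ k k' : autC b, ∃ a : A, IsKak b A al (g : GL (Fin N) ℝ) (k : GL (Fin N) ℝ) (k' : GL (Fin N) ℝ) a := by
    intro g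
    obtain ⟨k, k', hk, hk', h1, h2, a, ha, e⟩ := T.exists_kak (Pool.Agent.Helper66.BD.isAdj_component b) g.2
    exact ⟨⟨k, hk⟩, ⟨k', hk'⟩, a, hk, hk', h1, h2, ha, e⟩
  choose k k' a ha using h
  exact ⟨⟨k, k', a, ha⟩⟩

/-- The inverse. -/
theorem IsKak.inv {g k k' : GL (Fin N) ℝ} {a : A} (h : IsKak b A al g k k' a) :
    IsKak b A (fun i => -al i) g⁻¹ k'⁻¹ k⁻¹ (-a) := by
  have ho : ∀ {k : GL (Fin N) ℝ}, (k : Mat N)ᵀ * (k : Mat N) = 1 → ((k⁻¹ : GL (Fin N) ℝ) : Mat N)ᵀ * ((k⁻¹ : GL (Fin N) ℝ) : Mat N) = 1 := by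
    intro k hk
    have hinv : ((k⁻¹ : GL (Fin N) ℝ) : Mat N) = (k : Mat N)ᵀ := Units.inv_eq_of_mul_eq_one_left hk
    rw [hinv, Matrix.transpose_transpose]
    exact mul_eq_one_comm.1 hk
  refine ⟨(autC b).inv_mem h.kG', (autC b).inv_mem h.kG, ho h.ko', ho h.ko, fun i => ?_, ?_⟩
  · rw [LinearMap.neg_apply, map_neg, neg_neg]
    exact h.nn i
  · have e : (ex (TT_to b (a : L)))⁻¹ = ex (TT_to b ((-a : A) : L)) := by
      rw [Submodule.coe_neg, map_neg]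
      exact Units.ext rfl
    have e2 := congrArg (fun x => x⁻¹) h.eq
    simp only [_root_.mul_inv_rev] at e2
    rw [e] at e2
    rw [e2, mul_assoc]

/-- The sum of the absolute values of the entries. -/
def ent (X : Mat N) : ℝ := ∑ i, ∑ j, |X i j|

theorem ent_nonneg (X : Mat N) : 0 ≤ ent X := Finset.sum_nonneg fun _ _ => Finset.sum_nonneg fun _ _ => abs_nonneg _

theorem orth_entry {k : Mat N} (hk : kᵀ * k = 1) (i j : Fin N) : |k i j| ≤ 1 := by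
  have h1 := congrFun (congrFun hk j) j
  rw [Matrix.mul_apply, Matrix.one_apply_eq] at h1
  simp only [Matrix.transpose_apply] at h1
  have h2 : k i j * k i j ≤ ∑ p, k p j * k p j :=
    Finset.single_le_sum (f := fun p => k p j * k p j) (fun p _ => mul_self_nonneg _) (Finset.mem_univ i)
  rw [h1] at h2
  have h3 : |k i j| * |k i j| ≤ 1 := by rw [← abs_mul, abs_of_nonneg (mul_self_nonneg _)]; exact h2
  nlinarith [abs_nonneg (k i j)]

theorem ent_bd {k k' : Mat N} (hk : kᵀ * k = 1) (hk' : k'ᵀ * k' = 1) (X : Mat N) (i j : Fin N) : |(k * X * k') i j| ≤ ent X := by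
  rw [Matrix.mul_apply]
  calc |∑ q, (k * X) i q * k' q j| ≤ ∑ q, |(k * X) i q * k' q j| := Finset.abs_sum_le_sum_abs _ _
    _ ≤ ∑ q, ∑ p, |X p q| := by
        refine Finset.sum_le_sum fun q _ => ?_
        rw [abs_mul, Matrix.mul_apply]
        have h1 := orth_entry hk' q j
        have h2 : |∑ p, k i p * X p q| ≤ ∑ p, |X p q| := by
          refine (Finset.abs_sum_le_sum_abs _ _).trans (Finset.sum_le_sum fun p _ => ?_)
          rw [abs_mul]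
          have h3 := orth_entry hk i p
          have h4 := abs_nonneg (X p q)
          nlinarith
        have h5 : 0 ≤ ∑ p, |X p q| := Finset.sum_nonneg fun p _ => abs_nonneg _
        have h6 := abs_nonneg (∑ p, k i p * X p q)
        nlinarith [abs_nonneg (k' q j)]
    _ = ent X := Finset.sum_comm

namespace Kc

variable (κ : Kc b A al) (W : Wb b A al)

/-- The gaps. -/
def gap (g : autC b) (l : ι) : ℝ := al l (κ.mu g)

theorem gap_nonneg (g : autC b) (l : ι) : 0 ≤ κ.gap g l := (κ.spec g).nn l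

/-- The left matrix. -/
def kn (g h γ : autC b) : autC b := (κ.kL γ)⁻¹ * g * κ.kL (g⁻¹ * γ * h)

/-- The right matrix. -/
def km (g h γ : autC b) : autC b := κ.kR γ * h * (κ.kR (g⁻¹ * γ * h))⁻¹

theorem eqG (g : autC b) : (g : GL (Fin N) ℝ) = κ.kL g * ex (TT_to b (κ.mu g : L)) * κ.kR g := (κ.spec g).eq

theorem rel (g h γ : autC b) : ex (TT_to b (κ.mu γ : L)) * (κ.km g h γ : GL (Fin N) ℝ) =
    (κ.kn g h γ : GL (Fin N) ℝ) * ex (TT_to b (κ.mu (g⁻¹ * γ * h) : L)) := by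
  obtain ⟨γ', e⟩ : ∃ γ', γ' = g⁻¹ * γ * h := ⟨_, rfl⟩
  have e1 : (g : GL (Fin N) ℝ) * (γ' : GL (Fin N) ℝ) = γ * h := by
    rw [e]
    simp only [Subgroup.coe_mul, Subgroup.coe_inv]
    group
  unfold km kn
  rw [← e]
  have e2 := κ.eqG γ
  have e3 := κ.eqG γ'
  rw [e2, e3] at e1
  have e4 : ex (TT_to b (κ.mu γ : L)) = (κ.kL γ : GL (Fin N) ℝ)⁻¹ *
      ((g : GL (Fin N) ℝ) * ((κ.kL γ' : GL (Fin N) ℝ) * ex (TT_to b (κ.mu γ' : L)) * κ.kR γ')) * (h : GL (Fin N) ℝ)⁻¹ *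
      (κ.kR γ : GL (Fin N) ℝ)⁻¹ := by
    rw [e1]
    group
  rw [e4]
  simp only [Subgroup.coe_mul, Subgroup.coe_inv]
  group

theorem hat_inv_orth {k : GL (Fin N) ℝ} (hk : (k : Mat N)ᵀ * (k : Mat N) = 1) :
    hat W.O ((k⁻¹ : GL (Fin N) ℝ) : Mat N) = (hat W.O (k : Mat N))ᵀ := by
  have hinv : ((k⁻¹ : GL (Fin N) ℝ) : Mat N) = (k : Mat N)ᵀ := Units.inv_eq_of_mul_eq_one_left hk
  rw [hinv, hat_transpose]

theorem orthT {X : Mat N} (h : Xᵀ * X = 1) : (Xᵀ)ᵀ * Xᵀ = 1 := by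
  rw [Matrix.transpose_transpose]
  exact mul_eq_one_comm.1 h

theorem hat_kn (g h γ : autC b) : hat W.O ((κ.kn g h γ : GL (Fin N) ℝ) : Mat N) =
    (hat W.O ((κ.kL γ : GL (Fin N) ℝ) : Mat N))ᵀ * hat W.O ((g : GL (Fin N) ℝ) : Mat N) *
      hat W.O ((κ.kL (g⁻¹ * γ * h) : GL (Fin N) ℝ) : Mat N) := by
  unfold kn
  rw [Subgroup.coe_mul, Subgroup.coe_mul, Subgroup.coe_inv, Units.val_mul, Units.val_mul, hat_mul W.h2, hat_mul W.h2,
    hat_inv_orth W (κ.spec γ).ko]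

theorem hat_km (g h γ : autC b) : hat W.O ((κ.km g h γ : GL (Fin N) ℝ) : Mat N) =
    hat W.O ((κ.kR γ : GL (Fin N) ℝ) : Mat N) * hat W.O ((h : GL (Fin N) ℝ) : Mat N) *
      (hat W.O ((κ.kR (g⁻¹ * γ * h) : GL (Fin N) ℝ) : Mat N))ᵀ := by
  unfold km
  rw [Subgroup.coe_mul, Subgroup.coe_mul, Subgroup.coe_inv, Units.val_mul, Units.val_mul, hat_mul W.h2, hat_mul W.h2,
    hat_inv_orth W (κ.spec (g⁻¹ * γ * h)).ko']

theorem hat_kn_inv (g h γ : autC b) : hat W.O (((κ.kn g h γ : GL (Fin N) ℝ)⁻¹ : GL (Fin N) ℝ) : Mat N) =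
    (hat W.O ((κ.kL (g⁻¹ * γ * h) : GL (Fin N) ℝ) : Mat N))ᵀ * hat W.O ((g⁻¹ : GL (Fin N) ℝ) : Mat N) *
      hat W.O ((κ.kL γ : GL (Fin N) ℝ) : Mat N) := by
  unfold kn
  rw [Subgroup.coe_mul, Subgroup.coe_mul, Subgroup.coe_inv, _root_.mul_inv_rev, _root_.mul_inv_rev, inv_inv, ← mul_assoc, Units.val_mul, Units.val_mul,
    hat_mul W.h2, hat_mul W.h2, hat_inv_orth W (κ.spec (g⁻¹ * γ * h)).ko]

theorem hat_km_inv (g h γ : autC b) : hat W.O (((κ.km g h γ : GL (Fin N) ℝ)⁻¹ : GL (Fin N) ℝ) : Mat N) =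
    hat W.O ((κ.kR (g⁻¹ * γ * h) : GL (Fin N) ℝ) : Mat N) * hat W.O ((h⁻¹ : GL (Fin N) ℝ) : Mat N) *
      (hat W.O ((κ.kR γ : GL (Fin N) ℝ) : Mat N))ᵀ := by
  unfold km
  rw [Subgroup.coe_mul, Subgroup.coe_mul, Subgroup.coe_inv, _root_.mul_inv_rev, _root_.mul_inv_rev, inv_inv, ← mul_assoc, Units.val_mul, Units.val_mul,
    hat_mul W.h2, hat_mul W.h2, hat_inv_orth W (κ.spec γ).ko']

/-- A common bound for the entries. -/
theorem entries (g h : autC b) : ∃ C : ℝ, 1 ≤ C ∧ ∀ γ i j,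
    |hat W.O ((κ.kn g h γ : GL (Fin N) ℝ) : Mat N) i j| ≤ C ∧ |hat W.O ((κ.km g h γ : GL (Fin N) ℝ) : Mat N) i j| ≤ C ∧
    |hat W.O (((κ.kn g h γ : GL (Fin N) ℝ)⁻¹ : GL (Fin N) ℝ) : Mat N) i j| ≤ C ∧
    |hat W.O (((κ.km g h γ : GL (Fin N) ℝ)⁻¹ : GL (Fin N) ℝ) : Mat N) i j| ≤ C := by
  refine ⟨1 + ent (hat W.O ((g : GL (Fin N) ℝ) : Mat N)) + ent (hat W.O ((h : GL (Fin N) ℝ) : Mat N)) +
    ent (hat W.O ((g⁻¹ : GL (Fin N) ℝ) : Mat N)) + ent (hat W.O ((h⁻¹ : GL (Fin N) ℝ) : Mat N)), ?_, fun γ i j => ?_⟩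
  · have h1 := ent_nonneg (hat W.O ((g : GL (Fin N) ℝ) : Mat N))
    have h2 := ent_nonneg (hat W.O ((h : GL (Fin N) ℝ) : Mat N))
    have h3 := ent_nonneg (hat W.O ((g⁻¹ : GL (Fin N) ℝ) : Mat N))
    have h4 := ent_nonneg (hat W.O ((h⁻¹ : GL (Fin N) ℝ) : Mat N))
    linarith
  · have h1 := ent_nonneg (hat W.O ((g : GL (Fin N) ℝ) : Mat N))
    have h2 := ent_nonneg (hat W.O ((h : GL (Fin N) ℝ) : Mat N))
    have h3 := ent_nonneg (hat W.O ((g⁻¹ : GL (Fin N) ℝ) : Mat N))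
    have h4 := ent_nonneg (hat W.O ((h⁻¹ : GL (Fin N) ℝ) : Mat N))
    have o1 := IsKak.hat_orth (κ.spec γ).ko W
    have o2 := IsKak.hat_orth (κ.spec γ).ko' W
    have o3 := IsKak.hat_orth (κ.spec (g⁻¹ * γ * h)).ko W
    have o4 := IsKak.hat_orth (κ.spec (g⁻¹ * γ * h)).ko' W
    rw [κ.hat_kn, κ.hat_km, κ.hat_kn_inv, κ.hat_km_inv]
    refine ⟨?_, ?_, ?_, ?_⟩
    · refine (ent_bd (orthT o1) o3 _ i j).trans ?_
      linarith
    · refine (ent_bd o2 (orthT o4) _ i j).trans ?_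
      linarith
    · refine (ent_bd (orthT o3) o1 _ i j).trans ?_
      linarith
    · refine (ent_bd o4 (orthT o2) _ i j).trans ?_
      linarith

/-- The relation between the entries. -/
theorem rel_entry (g h γ : autC b) (i j : Fin N) :
    Real.exp (W.wt i (κ.mu γ)) * hat W.O ((κ.km g h γ : GL (Fin N) ℝ) : Mat N) i j =
      hat W.O ((κ.kn g h γ : GL (Fin N) ℝ) : Mat N) i j * Real.exp (W.wt j (κ.mu (g⁻¹ * γ * h))) := by
  have h1 := congrArg (fun x : GL (Fin N) ℝ => hat W.O (x : Mat N)) (κ.rel g h γ)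
  simp only [Units.val_mul, hat_mul W.h2, Wb.hat_ex] at h1
  have h2 := congrFun (congrFun h1 i) j
  rw [Matrix.diagonal_mul, Matrix.mul_diagonal] at h2
  exact h2

variable {W}

/-- The highest weights of the steps. -/
theorem top_step (T : TD θ b A al) (W : Wb b A al) (l : ι) (c : ℤ) (g h : autC b) : ∃ C : ℝ, ∀ γ : autC b,
    ∑ k ∈ W.stp l c, W.wt k (κ.mu γ) ≤ ∑ k ∈ W.stp l c, W.wt k (κ.mu (g⁻¹ * γ * h)) + C := by
  classical
  obtain ⟨J, hJd⟩ : ∃ J, J = enu (W.stp l c) := ⟨_, rfl⟩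
  have hJi : Function.Injective J := by rw [hJd]; exact enu_inj _
  have hJ : ∀ k, k ∈ Set.range J ↔ c ≤ W.cls k l := fun k => by rw [hJd]; exact W.enu_stp l c k
  obtain ⟨C, hC⟩ := IsKak.top_le T.h T.li hJi hJ (g : GL (Fin N) ℝ) ((h : GL (Fin N) ℝ)⁻¹) ((autC b).inv_mem h.2)
  refine ⟨C, fun γ => ?_⟩
  have h1 := hC (κ.spec (g⁻¹ * γ * h)) (κ.spec γ) (by
    simp only [Subgroup.coe_mul, Subgroup.coe_inv]
    group)
  rw [hJd, enu_sum _ fun k => W.wt k (κ.mu γ), enu_sum _ fun k => W.wt k (κ.mu (g⁻¹ * γ * h))] at h1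
  exact h1

/-- The lowest weights of the steps. -/
theorem top_step' (T : TD θ b A al) (W : Wb b A al) (l : ι) (c : ℤ) (g h : autC b) : ∃ C : ℝ, ∀ γ : autC b,
    ∑ k ∈ W.neg.stp l c, W.neg.wt k (-κ.mu γ) ≤ ∑ k ∈ W.neg.stp l c, W.neg.wt k (-κ.mu (g⁻¹ * γ * h)) + C := by
  classical
  obtain ⟨J, hJd⟩ : ∃ J, J = enu (W.neg.stp l c) := ⟨_, rfl⟩
  have hJi : Function.Injective J := by rw [hJd]; exact enu_inj _
  have hJ : ∀ k, k ∈ Set.range J ↔ c ≤ W.neg.cls k l := fun k => by rw [hJd]; exact W.neg.enu_stp l c k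
  obtain ⟨C, hC⟩ := IsKak.top_le T.neg.h T.neg.li hJi hJ (h : GL (Fin N) ℝ) ((g : GL (Fin N) ℝ)⁻¹) ((autC b).inv_mem g.2)
  refine ⟨C, fun γ => ?_⟩
  have h1 := hC (κ.spec (g⁻¹ * γ * h)).inv (κ.spec γ).inv (by
    simp only [Subgroup.coe_mul, Subgroup.coe_inv]
    group)
  rw [hJd, enu_sum _ fun k => W.neg.wt k (-κ.mu γ), enu_sum _ fun k => W.neg.wt k (-κ.mu (g⁻¹ * γ * h))] at h1
  exact h1

/-- **The rate on the left.** -/
theorem rateL (T : TD θ b A al) (W : Wb b A al) (g h : autC b) {l : ι} {i j : Fin N} (hij : W.cls i l < W.cls j l) :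
    ∃ K : ℝ, ∀ γ, |hat W.O ((κ.kn g h γ : GL (Fin N) ℝ) : Mat N) i j| ≤ K * Real.exp (-κ.gap γ l) := by
  obtain ⟨C, hC1, hC⟩ := κ.entries W g h
  obtain ⟨Ct, hCt⟩ := κ.top_step T W l (W.cls j l) g h
  obtain ⟨K, hK⟩ := W.rate T.h T.li hij hC1 Ct
  exact ⟨K, fun γ => hK (κ.km g h γ).2 (fun i j => (hC γ i j).2.1) (fun i j => (hC γ i j).1) (fun i j => (hC γ i j).2.2.1)
    (κ.gap_nonneg γ) (κ.rel_entry W g h γ) (hCt γ)⟩

/-- **The rate on the right.** -/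
theorem rateR (T : TD θ b A al) (W : Wb b A al) (g h : autC b) {l : ι} {i j : Fin N} (hij : W.cls j l < W.cls i l) :
    ∃ K : ℝ, ∀ γ, |hat W.O ((κ.km g h γ : GL (Fin N) ℝ) : Mat N) i j| ≤ K * Real.exp (-κ.gap γ l) := by
  obtain ⟨C, hC1, hC⟩ := κ.entries W g h
  obtain ⟨Ct, hCt⟩ := κ.top_step' T W l (W.neg.cls j l) g h
  have hij' : W.neg.cls i l < W.neg.cls j l := by
    change -W.cls i l < -W.cls j l
    omega
  obtain ⟨K, hK⟩ := W.neg.rate T.neg.h T.neg.li hij' hC1 Ct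
  refine ⟨K, fun γ => ?_⟩
  have h1 := hK (q := (κ.kn g h γ : GL (Fin N) ℝ)) (n := (κ.km g h γ : GL (Fin N) ℝ)) (a := -κ.mu γ) (a' := -κ.mu (g⁻¹ * γ * h))
    (κ.kn g h γ).2 (fun i j => (hC γ i j).1) (fun i j => (hC γ i j).2.1) (fun i j => (hC γ i j).2.2.2) (fun i => ?_) (fun i j => ?_) (hCt γ)
  · change |hat W.O ((κ.km g h γ : GL (Fin N) ℝ) : Mat N) i j| ≤ K * Real.exp (-(-al l) (-κ.mu γ)) at h1
    rw [LinearMap.neg_apply, map_neg, neg_neg] at h1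
    exact h1
  · rw [LinearMap.neg_apply, map_neg, neg_neg]
    exact κ.gap_nonneg γ i
  · change Real.exp (W.wt i (-κ.mu γ)) * hat W.O ((κ.kn g h γ : GL (Fin N) ℝ) : Mat N) i j =
      hat W.O ((κ.km g h γ : GL (Fin N) ℝ) : Mat N) i j * Real.exp (W.wt j (-κ.mu (g⁻¹ * γ * h)))
    have h2 := κ.rel_entry W g h γ i j
    rw [map_neg, map_neg, Real.exp_neg, Real.exp_neg]
    have e1 := (Real.exp_pos (W.wt i (κ.mu γ))).ne'
    have e2 := (Real.exp_pos (W.wt j (κ.mu (g⁻¹ * γ * h)))).ne'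
    field_simp
    linarith

/-- **The gaps are Lipschitz.** -/
theorem gap_lip (T : TD θ b A al) (g h : autC b) : ∃ C : ℝ, 0 ≤ C ∧ ∀ γ l, |κ.gap (g⁻¹ * γ * h) l - κ.gap γ l| ≤ C := by
  classical
  obtain ⟨W⟩ := T.exists_wb
  have h1 : ∀ l, ∃ C : ℝ, ∀ γ : autC b, |W.tpw l (κ.mu (g⁻¹ * γ * h)) - W.tpw l (κ.mu γ)| ≤ C := by
    intro l
    obtain ⟨C1, hC1⟩ := κ.top_step T W l 1 g h
    obtain ⟨C2, hC2⟩ := κ.top_step T W l 1 g⁻¹ h⁻¹
    refine ⟨max C1 C2, fun γ => ?_⟩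
    have h2 := hC1 γ
    have h3 := hC2 (g⁻¹ * γ * h)
    have e : (g⁻¹)⁻¹ * (g⁻¹ * γ * h) * h⁻¹ = γ := by group
    rw [e] at h3
    rw [W.tpw_apply, W.tpw_apply, abs_le]
    have h4 := le_max_left C1 C2
    have h5 := le_max_right C1 C2
    constructor <;> linarith
  choose C hC using h1
  have h2 : ∀ j, ∃ D : ℝ, ∀ γ : autC b, |κ.gap (g⁻¹ * γ * h) j - κ.gap γ j| ≤ D := by
    intro j
    obtain ⟨c, hc⟩ := Wb.al_mem T W j
    refine ⟨∑ l, |c l| * C l, fun γ => ?_⟩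
    unfold gap
    rw [hc, LinearMap.sum_apply, LinearMap.sum_apply, ← Finset.sum_sub_distrib]
    refine (Finset.abs_sum_le_sum_abs _ _).trans (Finset.sum_le_sum fun l _ => ?_)
    rw [LinearMap.smul_apply, LinearMap.smul_apply, smul_eq_mul, smul_eq_mul, ← mul_sub, abs_mul]
    exact mul_le_mul_of_nonneg_left (hC l γ) (abs_nonneg _)
  choose D hD using h2
  refine ⟨∑ j, |D j|, Finset.sum_nonneg fun _ _ => abs_nonneg _, fun γ l => ?_⟩
  exact (hD l γ).trans ((le_abs_self _).trans (Finset.single_le_sum (f := fun j => |D j|) (fun j _ => abs_nonneg _) (Finset.mem_univ l)))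

end Kc

end Pool.Agent.Helper72.FQ
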