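import Pool.Agent.Helper72.FQ.Wb

/-!
# Project FQ (MP_0f6f3f_an), target side, part Key: the minors of the elements of the group

`W.Dh`: the action of `L` on the tensor power in the weight basis. `W.UJ J`: the module generated by the minor vector of the columns `J`. If `J` enumerates a filtration step `{k | c ≤ cls k l}` then it is stable under
the derivations (`UJ_stable`) and under the group `autC b` (`UJ_RT`), and all its vectors are supported on smaller weights (`UJ_supp`). `key`: the minor with rows `I` and columns `J` of an element of `autC b` vanishes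
unless the weight of `I` is at most the weight of `J`.
-/

set_option autoImplicit false
set_option linter.unusedSectionVars false

open Matrix NormedSpace

namespace Pool.Agent.Helper72.FQ

open Pool.Agent.Helper96.SA Pool.Agent.Helper96.TO

variable {L : Type} [LieRing L] [LieAlgebra ℝ L] {N : ℕ} {θ : L ≃ₗ⁅ℝ⁆ L} {b : Module.Basis (Fin N) ℝ L}
  {A : Submodule ℝ L} {ι : Type} [Fintype ι] {al : ι → Module.Dual ℝ A} {d : Type} [Fintype d] [DecidableEq d]

namespace Wb

variable (W : Wb b A al)

/-- The action of `L` on the tensor power. -/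
noncomputable def Dh : L →ₗ[ℝ] VT d (Fin N) →ₗ[ℝ] VT d (Fin N) where
  toFun x := DT (hat W.O (TT_to b x))
  map_add' x y := LinearMap.ext fun v => by rw [map_add, hat_add, DT_add, LinearMap.add_apply]
  map_smul' c x := LinearMap.ext fun v => by rw [map_smul, hat_smul, DT_smul, LinearMap.smul_apply, RingHom.id_apply]

theorem Dh_apply (x : L) (v : VT d (Fin N)) : W.Dh x v = DT (hat W.O (TT_to b x)) v := rfl

theorem Dh_lie (x y : L) (v : VT d (Fin N)) : W.Dh ⁅x, y⁆ v = W.Dh x (W.Dh y v) - W.Dh y (W.Dh x v) := by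
  simp only [Dh_apply]
  rw [TT_lie_to, hat_sub, hat_mul W.h2, hat_mul W.h2, DT_lie]

/-- The vectors of nonpositive weight. -/
def Sn (A : Submodule ℝ L) (al : ι → Module.Dual ℝ A) : Set L :=
  {x | ∃ m : ι → ℕ, ∀ a : A, ⁅(a : L), x⁆ = (-∑ i, (m i : ℝ) • al i : Module.Dual ℝ A) a • x}

/-- The columns `J` of the identity. -/
def EJ (N : ℕ) (J : d → Fin N) : Matrix (Fin N) d ℝ := (1 : Mat N).submatrix id J

theorem mul_EJ (g : Mat N) (J : d → Fin N) : g * EJ N J = g.submatrix id J := by
  ext i q
  simp [EJ, Matrix.mul_apply, Matrix.one_apply]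

/-- The module generated by the minor vector of the columns `J`. -/
noncomputable def UJ (J : d → Fin N) : Submodule ℝ (VT d (Fin N)) := hwU W.Dh (Sn A al) (PL (EJ N J))

variable {W}

theorem UJ_stable (hl : LinearIndependent ℝ al) {l : ι} {c : ℤ} {J : d → Fin N} (hi : Function.Injective J)
    (hJ : ∀ k, k ∈ Set.range J ↔ c ≤ W.cls k l) (z : L) {u : VT d (Fin N)} (hu : u ∈ W.UJ J) : W.Dh z u ∈ W.UJ J := by
  refine hwU_stable (fun x y v => W.Dh_lie x y v) (fun K hS hv => ?_) z hu
  refine W.span_top K fun k x hx => ?_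
  rcases W.sgn k with h | h
  · refine hv x ?_
    have h3 : hat W.O (TT_to b x) * EJ N J = EJ N J * (hat W.O (TT_to b x)).submatrix J J := by
      ext i q
      rw [mul_EJ, Matrix.submatrix_apply, id, Matrix.mul_apply]
      have h5 : ∀ p, EJ N J i p = if i = J p then 1 else 0 := fun p => Matrix.one_apply
      by_cases hX : hat W.O (TT_to b x) i (J q) = 0
      · rw [hX]
        symm
        refine Finset.sum_eq_zero fun p _ => ?_
        rw [h5]
        split_ifs with h6
        · rw [Matrix.submatrix_apply, ← h6, hX, mul_zero]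
        · rw [zero_mul]
      · have h4 := W.hat_supp hx hX
        rw [W.eq k] at h4
        have h6 := W.cls_eq hl h4 l
        have h7 : c ≤ W.cls i l := by
          have := h l
          have := (hJ (J q)).1 ⟨q, rfl⟩
          omega
        obtain ⟨p0, hp0⟩ := (hJ i).2 h7
        rw [Finset.sum_eq_single p0]
        · rw [h5, if_pos hp0.symm, one_mul, Matrix.submatrix_apply, hp0]
        · intro p _ hp
          rw [h5, if_neg (fun h8 => hp (hi (h8.symm.trans hp0.symm))), zero_mul]
        · intro h8
          exact absurd (Finset.mem_univ _) h8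
    rw [Dh_apply, DT_PL _ _ _ h3]
    exact Submodule.smul_mem _ _ (Submodule.mem_span_singleton_self _)
  · refine hS ⟨fun l => (-W.cls k l).toNat, fun a => ?_⟩
    rw [hx a]
    congr 1
    rw [W.eq k, LinearMap.sum_apply, LinearMap.neg_apply, LinearMap.sum_apply, ← Finset.sum_neg_distrib]
    refine Finset.sum_congr rfl fun l _ => ?_
    have h3 : (((-W.cls k l).toNat : ℕ) : ℝ) = -(W.cls k l : ℝ) := by
      have h4 : (((-W.cls k l).toNat : ℕ) : ℤ) = -W.cls k l := Int.toNat_of_nonneg (neg_nonneg.2 (h l))
      exact_mod_cast h4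
    rw [LinearMap.smul_apply, LinearMap.smul_apply, h3]
    simp

/-- The vectors supported on weights which are at most the weight of `J`. -/
def Supp (W : Wb b A al) (J : d → Fin N) : Submodule ℝ (VT d (Fin N)) where
  carrier := {v | ∀ I, v I ≠ 0 → ∀ l, ∑ p, W.cls (I p) l ≤ ∑ p, W.cls (J p) l}
  add_mem' := by
    intro u v hu hv I h
    by_cases h0 : u I = 0
    · refine hv I fun h1 => h ?_
      rw [Pi.add_apply, h0, h1, add_zero]
    · exact hu I h0
  zero_mem' := fun I h => absurd rfl h
  smul_mem' := by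
    intro c v hv I h
    refine hv I fun h1 => h ?_
    rw [Pi.smul_apply, h1, smul_zero]

theorem mem_Supp {J : d → Fin N} {v : VT d (Fin N)} :
    v ∈ Supp W J ↔ ∀ I, v I ≠ 0 → ∀ l, ∑ p, W.cls (I p) l ≤ ∑ p, W.cls (J p) l := Iff.rfl

theorem UJ_supp (hl : LinearIndependent ℝ al) (J : d → Fin N) : W.UJ J ≤ Supp W J := by
  refine hwU_le ?_ ?_
  · intro I hI l
    rw [PL_apply, Matrix.det_apply] at hI
    obtain ⟨σ, -, hσ⟩ := Finset.exists_ne_zero_of_sum_ne_zero hI
    have h3 : ∀ p, I (σ p) = J p := by
      intro p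
      by_contra h4
      apply hσ
      rw [Finset.prod_eq_zero (Finset.mem_univ p), smul_zero]
      rw [Matrix.submatrix_apply, EJ, Matrix.submatrix_apply, Matrix.one_apply_ne]
      exact h4
    rw [← Equiv.sum_comp σ]
    simp only [h3]
    exact le_refl _
  · rintro x ⟨m, hm⟩ v hv I hI l
    rw [Dh_apply, DT_apply] at hI
    obtain ⟨k, -, hk⟩ := Finset.exists_ne_zero_of_sum_ne_zero hI
    obtain ⟨j, -, hj⟩ := Finset.exists_ne_zero_of_sum_ne_zero hk
    have h1 := left_ne_zero_of_mul hj
    have h2 := right_ne_zero_of_mul hj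
    have h3 := W.hat_supp hm h1
    have h4 : W.wt (I k) = W.wt j + ∑ l, ((-(m l : ℤ) : ℤ) : ℝ) • al l := by
      rw [h3]
      congr 1
      refine LinearMap.ext fun a => ?_
      simp [LinearMap.sum_apply]
    have h5 := W.cls_eq hl h4 l
    have h6 := hv _ h2 l
    rw [← Finset.add_sum_erase _ _ (Finset.mem_univ k), Function.update_self] at h6
    rw [← Finset.add_sum_erase _ _ (Finset.mem_univ k), h5]
    have h7 : ∑ p ∈ Finset.univ.erase k, W.cls (Function.update I k j p) l = ∑ p ∈ Finset.univ.erase k, W.cls (I p) l := by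
      refine Finset.sum_congr rfl fun p hp => ?_
      rw [Function.update_of_ne (Finset.ne_of_mem_erase hp)]
    rw [h7] at h6
    have h8 : (0 : ℤ) ≤ m l := Int.natCast_nonneg _
    omega

end Wb

end Pool.Agent.Helper72.FQ
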