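import Pool.Agent.Helper35.TZ.Conn
import Pool.Agent.Helper72.FQ.Key

/-!
# Project FQ (MP_0f6f3f_an), target side, part Key2: the minors of the elements of the group

`UJ_RT`: the modules `W.UJ J` (`J` a filtration step) are stable under `autC b`. `key`: the minor with rows `I` and columns `J` of an element of `autC b` vanishes unless the weight of `I` is at most the weight of `J`.
`key'`: the same for the filtration from below.
-/

set_option autoImplicit false
set_option linter.unusedSectionVars false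

open Matrix NormedSpace

namespace Pool.Agent.Helper72.FQ

open Pool.Agent.Helper96.SA Pool.Agent.Helper96.TO Pool.Agent.Helper35.TZ

variable {L : Type} [LieRing L] [LieAlgebra ℝ L] {N : ℕ} {θ : L ≃ₗ⁅ℝ⁆ L} {b : Module.Basis (Fin N) ℝ L}
  {A : Submodule ℝ L} {ι : Type} [Fintype ι] {al : ι → Module.Dual ℝ A} {d : Type} [Fintype d] [DecidableEq d]

namespace Wb

variable {W : Wb b A al}

/-- A subspace of the tensor power which is stable under the derivations is stable under the group. -/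
theorem stable_RT (h : CartanBasis θ b) {U : Submodule ℝ (VT d (Fin N))} (hU : ∀ z : L, ∀ u ∈ U, W.Dh z u ∈ U) {g : GL (Fin N) ℝ}
    (hg : g ∈ autC b) {u : VT d (Fin N)} (hu : u ∈ U) : RT (hat W.O (g : Mat N)) u ∈ U := by
  have hgen : ∀ x : L, ∀ u ∈ U, RT (hat W.O ((ex (TT_to b x) : GL (Fin N) ℝ) : Mat N)) u ∈ U := by
    intro x u hu
    rw [ex_coe, hat_exp W.h1 W.h2]
    exact RT_exp_mem _ U (fun v hv => hU x v hv) hu
  have key : ∀ g : GL (Fin N) ℝ, g ∈ Subgroup.closure (Set.range fun x : L => ex (LinearMap.toMatrix b b (LieAlgebra.ad ℝ L x))) →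
      (∀ u ∈ U, RT (hat W.O (g : Mat N)) u ∈ U) ∧ ∀ u ∈ U, RT (hat W.O ((g⁻¹ : GL (Fin N) ℝ) : Mat N)) u ∈ U := by
    intro g hg
    refine Subgroup.closure_induction (p := fun (g : GL (Fin N) ℝ) _ => (∀ u ∈ U, RT (hat W.O (g : Mat N)) u ∈ U) ∧
      ∀ u ∈ U, RT (hat W.O ((g⁻¹ : GL (Fin N) ℝ) : Mat N)) u ∈ U) ?_ ?_ ?_ ?_ hg
    · rintro _ ⟨x, rfl⟩
      refine ⟨fun u hu => hgen x u hu, fun u hu => ?_⟩
      have e : (ex (LinearMap.toMatrix b b (LieAlgebra.ad ℝ L x)))⁻¹ = ex (TT_to b (-x)) := by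
        rw [map_neg, ex_neg]
        rfl
      rw [e]
      exact hgen (-x) u hu
    · have h1 : ∀ u ∈ U, RT (hat W.O ((1 : GL (Fin N) ℝ) : Mat N)) u ∈ U := by
        intro u hu
        rw [Units.val_one, hat_one W.h1, RT_one]
        exact hu
      refine ⟨h1, ?_⟩
      rw [inv_one]
      exact h1
    · intro x y _ _ hx hy
      refine ⟨fun u hu => ?_, fun u hu => ?_⟩
      · rw [Units.val_mul, hat_mul W.h2, RT_mul]
        exact hx.1 _ (hy.1 u hu)
      · rw [_root_.mul_inv_rev, Units.val_mul, hat_mul W.h2, RT_mul]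
        exact hy.2 _ (hx.2 u hu)
    · intro x _ hx
      refine ⟨hx.2, ?_⟩
      rw [inv_inv]
      exact hx.1
  exact (key g (component_le h hg)).1 u hu

theorem UJ_RT (h : CartanBasis θ b) (hl : LinearIndependent ℝ al) {l : ι} {c : ℤ} {J : d → Fin N} (hi : Function.Injective J)
    (hJ : ∀ k, k ∈ Set.range J ↔ c ≤ W.cls k l) {g : GL (Fin N) ℝ} (hg : g ∈ autC b) {u : VT d (Fin N)} (hu : u ∈ W.UJ J) :
    RT (hat W.O (g : Mat N)) u ∈ W.UJ J :=
  stable_RT h (fun z _ hv => UJ_stable hl hi hJ z hv) hg hu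

theorem RT_EJ (g : Mat N) (J I : d → Fin N) : RT g (PL (EJ N J)) I = (g.submatrix I J).det := by
  rw [← PL_mul, mul_EJ, PL_apply]
  rfl

/-- **The minors of the elements of the group.** -/
theorem key (h : CartanBasis θ b) (hl : LinearIndependent ℝ al) {l : ι} {c : ℤ} {J : d → Fin N} (hi : Function.Injective J)
    (hJ : ∀ k, k ∈ Set.range J ↔ c ≤ W.cls k l) {g : GL (Fin N) ℝ} (hg : g ∈ autC b) {I : d → Fin N}
    (hI : ((hat W.O (g : Mat N)).submatrix I J).det ≠ 0) (j : ι) : ∑ p, W.cls (I p) j ≤ ∑ p, W.cls (J p) j := by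
  have h1 : RT (hat W.O (g : Mat N)) (PL (EJ N J)) ∈ W.UJ J := UJ_RT h hl hi hJ hg v0_mem
  have h2 := UJ_supp hl J h1 I
  rw [RT_EJ] at h2
  exact h2 hI j

/-- The minors of the elements of the group, the filtration from below. -/
theorem key' (h : CartanBasis θ b) (hl : LinearIndependent ℝ al) {l : ι} {c : ℤ} {J : d → Fin N} (hi : Function.Injective J)
    (hJ : ∀ k, k ∈ Set.range J ↔ W.cls k l ≤ c) {g : GL (Fin N) ℝ} (hg : g ∈ autC b) {I : d → Fin N}
    (hI : ((hat W.O (g : Mat N)).submatrix I J).det ≠ 0) (j : ι) : ∑ p, W.cls (J p) j ≤ ∑ p, W.cls (I p) j := by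
  have h1 := key (W := W.neg) (l := l) (c := -c) h hl.neg hi (fun k => by
    rw [hJ k]
    change _ ↔ -c ≤ -W.cls k l
    omega) hg hI j
  have h2 : ∀ K : d → Fin N, ∑ p, W.neg.cls (K p) j = -∑ p, W.cls (K p) j := fun K => by
    rw [← Finset.sum_neg_distrib]
    rfl
  rw [h2, h2] at h1
  omega

end Wb

end Pool.Agent.Helper72.FQ
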