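import Pool.Agent.Helper72.FQ.Key2

/-!
# Project FQ (MP_0f6f3f_an), target side, part Nrm: norms on the tensor power

`n2 v = ∑ I, v I ^ 2`. `n2_orth`: orthogonal matrices preserve it. `n2_le`: `n2 (RT g v) ≤ cN g * n2 v`. `topw J μ = ∑ p, wt (J p) μ`: the highest weight. `n2_exp_le`: on the module `UJ J` the element `exp μ` of the closed chamber
multiplies `n2` at most by `exp (2 * topw J μ)`. `top_le`: if `γ' = g⁻¹ γ h` then `topw J μ' ≤ topw J μ + C(g, h)`.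
-/

set_option autoImplicit false
set_option linter.unusedSectionVars false

open Matrix NormedSpace

namespace Pool.Agent.Helper72.FQ

open Pool.Agent.Helper96.SA Pool.Agent.Helper96.TO Pool.Agent.Helper35.TZ

section N2

variable {n : Type} [Fintype n] [DecidableEq n] {d : Type} [Fintype d] [DecidableEq d]

/-- The square of the norm. -/
def n2 (v : VT d n) : ℝ := ∑ I, v I ^ 2

theorem n2_nonneg (v : VT d n) : 0 ≤ n2 v := Finset.sum_nonneg fun _ _ => sq_nonneg _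

theorem RT_adj (g : Matrix n n ℝ) (v w : VT d n) : ∑ I, RT g v I * w I = ∑ I, v I * RT gᵀ w I := by
  simp only [RT_apply, Finset.sum_mul, Finset.mul_sum]
  rw [Finset.sum_comm]
  refine Finset.sum_congr rfl fun I _ => Finset.sum_congr rfl fun J _ => ?_
  simp only [Matrix.transpose_apply]
  ring

theorem n2_orth {k : Matrix n n ℝ} (hk : kᵀ * k = 1) (v : VT d n) : n2 (RT k v) = n2 v := by
  unfold n2
  have h := RT_adj k v (RT k v)
  rw [← RT_mul, hk, RT_one] at h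
  simp only [sq]
  exact h

/-- A bound for the norm of `RT g`. -/
def cN (d : Type) [Fintype d] [DecidableEq d] (g : Matrix n n ℝ) : ℝ := ∑ I : d → n, ∑ J : d → n, (∏ k, g (I k) (J k)) ^ 2

theorem cN_nonneg (g : Matrix n n ℝ) : 0 ≤ cN d g := Finset.sum_nonneg fun _ _ => Finset.sum_nonneg fun _ _ => sq_nonneg _

theorem n2_le (g : Matrix n n ℝ) (v : VT d n) : n2 (RT g v) ≤ cN d g * n2 v := by
  unfold n2 cN
  rw [Finset.sum_mul]
  refine Finset.sum_le_sum fun I _ => ?_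
  rw [RT_apply]
  exact Finset.sum_mul_sq_le_sq_mul_sq _ _ _

theorem RT_diagonal (e : n → ℝ) (v : VT d n) (I : d → n) : RT (diagonal e) v I = (∏ k, e (I k)) * v I := by
  rw [RT_apply, Finset.sum_eq_single I]
  · simp only [Matrix.diagonal_apply_eq]
  · intro J _ hJ
    obtain ⟨k, hk⟩ := Function.ne_iff.1 hJ
    rw [Finset.prod_eq_zero (Finset.mem_univ k) (by rw [Matrix.diagonal_apply_ne _ hk.symm]), zero_mul]
  · intro h
    exact absurd (Finset.mem_univ _) h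

end N2

variable {L : Type} [LieRing L] [LieAlgebra ℝ L] {N : ℕ} {θ : L ≃ₗ⁅ℝ⁆ L} {b : Module.Basis (Fin N) ℝ L}
  {A : Submodule ℝ L} {ι : Type} [Fintype ι] {al : ι → Module.Dual ℝ A} {d : Type} [Fintype d] [DecidableEq d]

namespace Wb

variable {W : Wb b A al}

theorem wt_sum (I : d → Fin N) (a : A) : ∑ p, W.wt (I p) a = ∑ l, ((∑ p, W.cls (I p) l : ℤ) : ℝ) * al l a := by
  simp only [W.eq, LinearMap.sum_apply, LinearMap.smul_apply, smul_eq_mul]
  rw [Finset.sum_comm]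
  refine Finset.sum_congr rfl fun l _ => ?_
  rw [Int.cast_sum, Finset.sum_mul]

theorem hat_ex (a : A) : hat W.O ((ex (TT_to b (a : L)) : GL (Fin N) ℝ) : Mat N) = diagonal (fun k => Real.exp (W.wt k a)) := by
  rw [ex_coe, W.dg, exp_diag W.O W.h1 W.h2, hat_diag W.h1]

theorem RT_ex (a : A) (v : VT d (Fin N)) (I : d → Fin N) :
    RT (hat W.O ((ex (TT_to b (a : L)) : GL (Fin N) ℝ) : Mat N)) v I = Real.exp (∑ p, W.wt (I p) a) * v I := by
  rw [hat_ex, RT_diagonal, Real.exp_sum]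

/-- The exponents on the supports. -/
theorem wt_le {J : d → Fin N} {a : A} (ha : ∀ i, 0 ≤ al i a) {I : d → Fin N}
    (hI : ∀ l, ∑ p, W.cls (I p) l ≤ ∑ p, W.cls (J p) l) : ∑ p, W.wt (I p) a ≤ ∑ p, W.wt (J p) a := by
  rw [wt_sum, wt_sum]
  refine Finset.sum_le_sum fun l _ => mul_le_mul_of_nonneg_right ?_ (ha l)
  exact_mod_cast hI l

theorem n2_exp_le (hl : LinearIndependent ℝ al) {J : d → Fin N} {a : A} (ha : ∀ i, 0 ≤ al i a) {v : VT d (Fin N)} (hv : v ∈ W.UJ J) :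
    n2 (RT (hat W.O ((ex (TT_to b (a : L)) : GL (Fin N) ℝ) : Mat N)) v) ≤ Real.exp (∑ p, W.wt (J p) a) ^ 2 * n2 v := by
  unfold n2
  rw [Finset.mul_sum]
  refine Finset.sum_le_sum fun I _ => ?_
  rw [RT_ex, mul_pow]
  by_cases h0 : v I = 0
  · rw [h0]
    simp
  · refine mul_le_mul_of_nonneg_right ?_ (sq_nonneg _)
    refine pow_le_pow_left₀ (Real.exp_pos _).le (Real.exp_le_exp.2 ?_) 2
    exact wt_le ha fun l => UJ_supp hl J hv I h0 l

/-- The highest weight vector is an eigenvector. -/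
theorem RT_ex_v0 (a : A) (J : d → Fin N) : RT (hat W.O ((ex (TT_to b (a : L)) : GL (Fin N) ℝ) : Mat N)) (PL (EJ N J)) =
    Real.exp (∑ p, W.wt (J p) a) • PL (EJ N J) := by
  funext I
  rw [RT_ex, Pi.smul_apply, smul_eq_mul]
  by_cases h0 : PL (EJ N J) I = 0
  · rw [h0, mul_zero, mul_zero]
  · rw [PL_apply, Matrix.det_apply] at h0
    obtain ⟨σ, -, hσ⟩ := Finset.exists_ne_zero_of_sum_ne_zero h0
    have h3 : ∀ p, I (σ p) = J p := by
      intro p
      by_contra h4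
      apply hσ
      rw [Finset.prod_eq_zero (Finset.mem_univ p), smul_zero]
      rw [Matrix.submatrix_apply, EJ, Matrix.submatrix_apply, Matrix.one_apply_ne]
      exact h4
    congr 2
    rw [← Equiv.sum_comp σ]
    simp only [h3]

theorem PL_EJ_self {J : d → Fin N} (hi : Function.Injective J) : PL (EJ N J) J = 1 := by
  rw [PL_apply]
  have h : (EJ N J).submatrix J id = 1 := by
    ext p q
    rw [Matrix.submatrix_apply, EJ, Matrix.submatrix_apply, Matrix.one_apply, Matrix.one_apply]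
    simp only [id, hi.eq_iff]
  rw [h, Matrix.det_one]

theorem n2_v0_pos {J : d → Fin N} (hi : Function.Injective J) : 0 < n2 (PL (EJ N J)) := by
  unfold n2
  refine Finset.sum_pos' (fun _ _ => sq_nonneg _) ⟨J, Finset.mem_univ _, ?_⟩
  rw [PL_EJ_self hi]
  norm_num

end Wb

/-- A Cartan decomposition of `g` in `autC b`. -/
structure IsKak (b : Module.Basis (Fin N) ℝ L) (A : Submodule ℝ L) (al : ι → Module.Dual ℝ A) (g k k' : GL (Fin N) ℝ) (a : A) : Prop where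
  kG : k ∈ autC b
  kG' : k' ∈ autC b
  ko : (k : Mat N)ᵀ * (k : Mat N) = 1
  ko' : (k' : Mat N)ᵀ * (k' : Mat N) = 1
  nn : ∀ i, 0 ≤ al i a
  eq : g = k * ex (TT_to b (a : L)) * k'

namespace IsKak

variable {W : Wb b A al} {g k k' : GL (Fin N) ℝ} {a : A}

theorem mem (h : IsKak b A al g k k' a) : g ∈ autC b := by
  rw [h.eq]
  exact (autC b).mul_mem ((autC b).mul_mem h.kG ((Pool.Agent.Helper66.BD.isAdj_component b).exp_ad _)) h.kG'

theorem hat_orth {k : GL (Fin N) ℝ} (hk : (k : Mat N)ᵀ * (k : Mat N) = 1) (W : Wb b A al) : (hat W.O (k : Mat N))ᵀ * hat W.O (k : Mat N) = 1 := by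
  rw [hat_transpose, ← hat_mul W.h2, hk, hat_one W.h1]

/-- The norm of `g` on the module. -/
theorem n2_le (hC : CartanBasis θ b) (hl : LinearIndependent ℝ al) {l : ι} {c : ℤ} {J : d → Fin N} (hi : Function.Injective J)
    (hJ : ∀ k, k ∈ Set.range J ↔ c ≤ W.cls k l) (h : IsKak b A al g k k' a) {v : VT d (Fin N)} (hv : v ∈ W.UJ J) :
    n2 (RT (hat W.O (g : Mat N)) v) ≤ Real.exp (∑ p, W.wt (J p) a) ^ 2 * n2 v := by
  rw [h.eq, Units.val_mul, Units.val_mul, hat_mul W.h2, hat_mul W.h2, RT_mul, RT_mul, n2_orth (hat_orth h.ko W)]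
  refine (Wb.n2_exp_le hl h.nn (Wb.UJ_RT hC hl hi hJ h.kG' hv)).trans (le_of_eq ?_)
  rw [n2_orth (hat_orth h.ko' W)]

/-- The norm is attained. -/
theorem exists_n2_eq (hC : CartanBasis θ b) (hl : LinearIndependent ℝ al) {l : ι} {c : ℤ} {J : d → Fin N} (hi : Function.Injective J)
    (hJ : ∀ k, k ∈ Set.range J ↔ c ≤ W.cls k l) (h : IsKak b A al g k k' a) :
    ∃ v ∈ W.UJ J, n2 v = n2 (PL (Wb.EJ N J)) ∧ n2 (RT (hat W.O (g : Mat N)) v) = Real.exp (∑ p, W.wt (J p) a) ^ 2 * n2 v := by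
  have hinv : ((k'⁻¹ : GL (Fin N) ℝ) : Mat N) = (k' : Mat N)ᵀ := Units.inv_eq_of_mul_eq_one_left h.ko'
  have ho : ((k'⁻¹ : GL (Fin N) ℝ) : Mat N)ᵀ * ((k'⁻¹ : GL (Fin N) ℝ) : Mat N) = 1 := by
    rw [hinv, Matrix.transpose_transpose]
    exact mul_eq_one_comm.1 h.ko'
  refine ⟨RT (hat W.O ((k'⁻¹ : GL (Fin N) ℝ) : Mat N)) (PL (Wb.EJ N J)),
    Wb.UJ_RT hC hl hi hJ ((autC b).inv_mem h.kG') v0_mem, n2_orth (hat_orth ho W) _, ?_⟩
  have e : g = k * ex (TT_to b (a : L)) * k' := h.eq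
  have e2 : RT (hat W.O (k' : Mat N)) (RT (hat W.O ((k'⁻¹ : GL (Fin N) ℝ) : Mat N)) (PL (Wb.EJ N J))) = PL (Wb.EJ N J) := by
    rw [← RT_mul, ← hat_mul W.h2, ← Units.val_mul, mul_inv_cancel, Units.val_one, hat_one W.h1, RT_one]
  rw [e, Units.val_mul, Units.val_mul, hat_mul W.h2, hat_mul W.h2, RT_mul, RT_mul, n2_orth (hat_orth h.ko W), e2, Wb.RT_ex_v0,
    n2_orth (hat_orth ho W)]
  unfold n2
  rw [Finset.mul_sum]
  refine Finset.sum_congr rfl fun I _ => ?_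
  rw [Pi.smul_apply, smul_eq_mul, mul_pow]

/-- **The highest weights of `γ` and `g⁻¹ γ h`.** -/
theorem top_le (hC : CartanBasis θ b) (hl : LinearIndependent ℝ al) {l : ι} {c : ℤ} {J : d → Fin N} (hi : Function.Injective J)
    (hJ : ∀ k, k ∈ Set.range J ↔ c ≤ W.cls k l) (x y : GL (Fin N) ℝ) (hy : y ∈ autC b) :
    ∃ C : ℝ, ∀ {g g' k k' k1 k1' : GL (Fin N) ℝ} {a a1 : A}, IsKak b A al g k k' a → IsKak b A al g' k1 k1' a1 → g' = x * g * y →
      ∑ p, W.wt (J p) a1 ≤ ∑ p, W.wt (J p) a + C := by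
  obtain ⟨K, hK⟩ : ∃ K, K = (cN d (hat W.O (x : Mat N)) + 1) * (cN d (hat W.O (y : Mat N)) + 1) := ⟨_, rfl⟩
  have hx0 := cN_nonneg (d := d) (hat W.O (x : Mat N))
  have hy0 := cN_nonneg (d := d) (hat W.O (y : Mat N))
  have hK0 : 0 < K := by
    rw [hK]
    positivity
  refine ⟨Real.log K / 2, fun {g g' k k' k1 k1' a a1} h h1 e => ?_⟩
  obtain ⟨v, hv, hv1, hv2⟩ := h1.exists_n2_eq hC hl hi hJ (W := W)
  have hp := Wb.n2_v0_pos (N := N) hi
  rw [e, Units.val_mul, Units.val_mul, hat_mul W.h2, hat_mul W.h2, RT_mul, RT_mul] at hv2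
  have h3 : Real.exp (∑ p, W.wt (J p) a1) ^ 2 * n2 v ≤ K * Real.exp (∑ p, W.wt (J p) a) ^ 2 * n2 v := by
    rw [← hv2]
    refine (FQ.n2_le _ _).trans ?_
    have h4 := h.n2_le hC hl hi hJ (Wb.UJ_RT hC hl hi hJ hy hv)
    have h5 := FQ.n2_le (hat W.O (y : Mat N)) v
    have hE : 0 ≤ Real.exp (∑ p, W.wt (J p) a) ^ 2 := sq_nonneg _
    have hv0 := n2_nonneg v
    calc cN d (hat W.O (x : Mat N)) * n2 (RT (hat W.O (g : Mat N)) (RT (hat W.O (y : Mat N)) v))
        ≤ cN d (hat W.O (x : Mat N)) * (Real.exp (∑ p, W.wt (J p) a) ^ 2 * (cN d (hat W.O (y : Mat N)) * n2 v)) :=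
          mul_le_mul_of_nonneg_left (h4.trans (mul_le_mul_of_nonneg_left h5 hE)) hx0
      _ ≤ (cN d (hat W.O (x : Mat N)) + 1) * (Real.exp (∑ p, W.wt (J p) a) ^ 2 * ((cN d (hat W.O (y : Mat N)) + 1) * n2 v)) := by
          gcongr <;> linarith
      _ = _ := by
          rw [hK]
          ring
  rw [hv1] at h3
  have h4 : Real.exp (∑ p, W.wt (J p) a1) ^ 2 ≤ K * Real.exp (∑ p, W.wt (J p) a) ^ 2 := le_of_mul_le_mul_right h3 hp
  have h5 : Real.exp (2 * ∑ p, W.wt (J p) a1) ≤ Real.exp (Real.log K + 2 * ∑ p, W.wt (J p) a) := by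
    rw [Real.exp_add, Real.exp_log hK0]
    have e1 : ∀ t : ℝ, Real.exp (2 * t) = Real.exp t ^ 2 := fun t => by rw [← Real.exp_nat_mul]; norm_num
    rw [e1, e1]
    exact h4
  have h6 := Real.exp_le_exp.1 h5
  linarith

end IsKak

end Pool.Agent.Helper72.FQ
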