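import Pool.Agent.Helper72.FQ.Nrm

/-!
# Project FQ (MP_0f6f3f_an), target side, part Rate: the rate of the block triangular asymptotics

`entry_bd`: if all the minors with columns `J` and rows not in `J` are at most `E` then the entries with column in `J` and row not in `J` are at most `K * E`. `rate`: if `q, n ∈ autC b` are bounded and `exp a * q = n * exp a'`, `a` in the closed
chamber, then `|n i j| ≤ K * exp (- al l a)` whenever `cls i l < cls j l`.
-/

set_option autoImplicit false
set_option linter.unusedSectionVars false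

open Matrix NormedSpace

namespace Pool.Agent.Helper72.FQ

open Pool.Agent.Helper96.SA Pool.Agent.Helper96.TO Pool.Agent.Helper35.TZ

section Count

variable {N : ℕ} {d : Type} [Fintype d] [DecidableEq d]

theorem count_lt {f : Fin N → ℤ} {c : ℤ} {J I : d → Fin N} (hJi : Function.Injective J) (hJ : ∀ k, k ∈ Set.range J ↔ c ≤ f k)
    (hIi : Function.Injective I) (hI : ∃ p, I p ∉ Set.range J) : ∑ p, f (I p) < ∑ p, f (J p) := by
  classical
  obtain ⟨p0, hp0⟩ := hI
  set S := Finset.univ.image I with hS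
  set T := Finset.univ.image J with hT
  have eS : ∀ g : Fin N → ℤ, ∑ p, g (I p) = ∑ k ∈ S, g k := fun g => by
    rw [hS, Finset.sum_image fun x _ y _ h => hIi h]
  have eT : ∀ g : Fin N → ℤ, ∑ p, g (J p) = ∑ k ∈ T, g k := fun g => by
    rw [hT, Finset.sum_image fun x _ y _ h => hJi h]
  have cS : S.card = Fintype.card d := by rw [hS, Finset.card_image_of_injective _ hIi, Finset.card_univ]
  have cT : T.card = Fintype.card d := by rw [hT, Finset.card_image_of_injective _ hJi, Finset.card_univ]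
  have mT : ∀ k, k ∈ T ↔ c ≤ f k := fun k => by
    rw [← hJ k, hT, Finset.mem_image]
    simp
  have hpS : I p0 ∈ S := Finset.mem_image_of_mem _ (Finset.mem_univ _)
  have hpT : I p0 ∉ T := fun h => hp0 ((hJ _).2 ((mT _).1 h))
  have h1 : ∑ k ∈ S, (f k - c + 1) ≤ ∑ k ∈ S ∩ T, (f k - c + 1) := by
    rw [← Finset.sum_inter_add_sum_sdiff S T]
    have h2 : ∑ k ∈ S \ T, (f k - c + 1) ≤ 0 := by
      refine Finset.sum_nonpos fun k hk => ?_
      have h3 : ¬ c ≤ f k := fun h4 => (Finset.mem_sdiff.1 hk).2 ((mT k).2 h4)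
      omega
    linarith
  have h2 : ∃ k ∈ T, k ∉ S ∩ T := by
    by_contra hcon
    push Not at hcon
    have h3 : T ⊆ S ∩ T := hcon
    have h4 : T ⊆ S := h3.trans Finset.inter_subset_left
    have h5 : T = S := Finset.eq_of_subset_of_card_le h4 (by rw [cS, cT])
    rw [h5] at hpT
    exact hpT hpS
  obtain ⟨k, hkT, hk⟩ := h2
  have h3 : ∑ k ∈ S ∩ T, (f k - c + 1) < ∑ k ∈ T, (f k - c + 1) := by
    refine Finset.sum_lt_sum_of_subset Finset.inter_subset_right hkT hk ?_ fun j hj _ => ?_
    · have := (mT k).1 hkT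
      omega
    · have := (mT j).1 hj
      omega
  have h4 : ∑ k ∈ S, (f k - c + 1) = ∑ k ∈ S, f k + S.card * (1 - c) := by
    rw [← nsmul_eq_mul, ← Finset.sum_const, ← Finset.sum_add_distrib]
    exact Finset.sum_congr rfl fun k _ => by ring
  have h5 : ∑ k ∈ T, (f k - c + 1) = ∑ k ∈ T, f k + T.card * (1 - c) := by
    rw [← nsmul_eq_mul, ← Finset.sum_const, ← Finset.sum_add_distrib]
    exact Finset.sum_congr rfl fun k _ => by ring
  rw [eS, eT]
  rw [h4] at h1
  rw [h5, cT] at h3
  rw [cS] at h1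
  linarith

theorem abs_det_perm {n : Mat N} {J I : d → Fin N} (_hJi : Function.Injective J) (hIi : Function.Injective I)
    (hI : ∀ p, I p ∈ Set.range J) : |(n.submatrix I J).det| = |(n.submatrix J J).det| := by
  choose σ hσ using hI
  have hσi : Function.Injective σ := by
    intro p q h
    apply hIi
    rw [← hσ p, ← hσ q, h]
  let e : Equiv.Perm d := Equiv.ofBijective σ (Finite.injective_iff_bijective.1 hσi)
  have h1 : n.submatrix I J = (n.submatrix J J).submatrix e id := by
    ext p q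
    rw [Matrix.submatrix_apply, Matrix.submatrix_apply, Matrix.submatrix_apply]
    change n (I p) (J q) = n (J (σ p)) (J q)
    rw [hσ]
  rw [h1, Matrix.det_permute, abs_mul]
  have h2 : |((Equiv.Perm.sign e : ℤ) : ℝ)| = 1 := by
    rcases Int.units_eq_one_or (Equiv.Perm.sign e) with h | h <;> simp [h]
  rw [h2, one_mul]

/-- The entries outside of the block from the minors. -/
theorem entry_bd {n n' : Mat N} (hn : n' * n = 1) {C : ℝ} (hC : 1 ≤ C) (h : ∀ i j, |n i j| ≤ C) (h' : ∀ i j, |n' i j| ≤ C)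
    {J : d → Fin N} (hJi : Function.Injective J) {E : ℝ} (hE0 : 0 ≤ E)
    (hE : ∀ I : d → Fin N, Function.Injective I → (∃ p, I p ∉ Set.range J) → |(n.submatrix I J).det| ≤ E)
    {i : Fin N} (hi : i ∉ Set.range J) (q : d) :
    |n i (J q)| ≤ ((N : ℝ) ^ Fintype.card d * C ^ Fintype.card d * C * (Fintype.card d + 1)) * E := by
  have hC0 : 0 ≤ C := zero_le_one.trans hC
  obtain ⟨D, hD⟩ : ∃ D, D = |(n.submatrix J J).det| := ⟨_, rfl⟩
  have hD0 : 0 ≤ D := by rw [hD]; exact abs_nonneg _
  obtain ⟨K0, hK0⟩ : ∃ K0, K0 = (N : ℝ) ^ Fintype.card d * C ^ Fintype.card d := ⟨_, rfl⟩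
  have hK00 : 0 ≤ K0 := by rw [hK0]; positivity
  rw [← hK0]
  have hall : ∀ I : d → Fin N, |(n.submatrix I J).det| ≤ max D E := by
    intro I
    by_cases hIi : Function.Injective I
    · by_cases hI : ∀ p, I p ∈ Set.range J
      · rw [abs_det_perm hJi hIi hI, ← hD]
        exact le_max_left _ _
      · push Not at hI
        exact (hE I hIi hI).trans (le_max_right _ _)
    · rw [Function.Injective] at hIi
      push Not at hIi
      obtain ⟨p, r, hpr, hne⟩ := hIi
      rw [Matrix.det_zero_of_row_eq hne (by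
        funext s
        rw [Matrix.submatrix_apply, Matrix.submatrix_apply, hpr]), abs_zero]
      exact hD0.trans (le_max_left _ _)
  have h1 : 1 ≤ K0 * max D E := by
    have e1 : RT n' (RT n (PL (Wb.EJ N J))) J = 1 := by
      rw [← RT_mul, hn, RT_one, Wb.PL_EJ_self hJi]
    rw [RT_apply] at e1
    have e2 : ∀ I : d → Fin N, |(∏ k, n' (J k) (I k)) * RT n (PL (Wb.EJ N J)) I| ≤ C ^ Fintype.card d * max D E := by
      intro I
      rw [abs_mul, Wb.RT_EJ, Finset.abs_prod]
      refine mul_le_mul ?_ (hall I) (abs_nonneg _) (by positivity)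
      calc ∏ k, |n' (J k) (I k)| ≤ ∏ _k : d, C := Finset.prod_le_prod (fun _ _ => abs_nonneg _) fun k _ => h' _ _
        _ = C ^ Fintype.card d := by rw [Finset.prod_const, Finset.card_univ]
    calc (1 : ℝ) = |∑ I : d → Fin N, (∏ k, n' (J k) (I k)) * RT n (PL (Wb.EJ N J)) I| := by rw [e1, abs_one]
      _ ≤ ∑ I : d → Fin N, |(∏ k, n' (J k) (I k)) * RT n (PL (Wb.EJ N J)) I| := Finset.abs_sum_le_sum_abs _ _
      _ ≤ ∑ _I : d → Fin N, C ^ Fintype.card d * max D E := Finset.sum_le_sum fun I _ => e2 I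
      _ = K0 * max D E := by
        rw [Finset.sum_const, Finset.card_univ, Fintype.card_fun, Fintype.card_fin, nsmul_eq_mul, hK0]
        push_cast
        ring
  have hd0 : (0 : ℝ) ≤ Fintype.card d := Nat.cast_nonneg _
  rcases le_total E D with hED | hED
  · rw [max_eq_left hED] at h1
    -- Cramer
    have h2 : n i (J q) * (n.submatrix J J).det = ∑ k, (n.submatrix (Function.update J k i) J).det * n (J k) (J q) := by
      have e1 : ∀ k, (n.submatrix (Function.update J k i) J).det = ∑ p, n i (J p) * (n.submatrix J J).adjugate p k := by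
        intro k
        rw [← det_updateRow_adj]
        congr 1
        ext p s
        by_cases hp : p = k
        · subst hp
          simp
        · simp [hp]
      simp only [e1, Finset.sum_mul]
      rw [Finset.sum_comm]
      have e2 : ∀ p, ∑ k, n i (J p) * (n.submatrix J J).adjugate p k * n (J k) (J q) =
          n i (J p) * (((n.submatrix J J).adjugate * n.submatrix J J) p q) := by
        intro p
        rw [Matrix.mul_apply, Finset.mul_sum]
        refine Finset.sum_congr rfl fun k _ => ?_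
        rw [Matrix.submatrix_apply]
        ring
      simp only [e2, Matrix.adjugate_mul]
      rw [Finset.sum_eq_single q]
      · rw [Matrix.smul_apply, Matrix.one_apply_eq, smul_eq_mul, mul_one]
      · intro p _ hp
        rw [Matrix.smul_apply, Matrix.one_apply_ne hp, smul_zero, mul_zero]
      · intro hq
        exact absurd (Finset.mem_univ _) hq
    have h3 : |n i (J q)| * D ≤ Fintype.card d * (E * C) := by
      rw [hD, ← abs_mul, h2]
      refine (Finset.abs_sum_le_sum_abs _ _).trans ?_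
      rw [← nsmul_eq_mul, ← Finset.card_univ, ← Finset.sum_const]
      refine Finset.sum_le_sum fun k _ => ?_
      rw [abs_mul]
      refine mul_le_mul (hE _ ?_ ⟨k, ?_⟩) (h _ _) (abs_nonneg _) hE0
      · intro p r hpr
        by_cases hp : p = k
        · by_cases hr : r = k
          · rw [hp, hr]
          · rw [hp, Function.update_self, Function.update_of_ne hr] at hpr
            exact absurd ⟨r, hpr.symm⟩ hi
        · by_cases hr : r = k
          · rw [hr, Function.update_self, Function.update_of_ne hp] at hpr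
            exact absurd ⟨p, hpr⟩ hi
          · rw [Function.update_of_ne hp, Function.update_of_ne hr] at hpr
            exact hJi hpr
      · rw [Function.update_self]
        exact hi
    calc |n i (J q)| = |n i (J q)| * 1 := (mul_one _).symm
      _ ≤ |n i (J q)| * (K0 * D) := mul_le_mul_of_nonneg_left h1 (abs_nonneg _)
      _ = K0 * (|n i (J q)| * D) := by ring
      _ ≤ K0 * (Fintype.card d * (E * C)) := mul_le_mul_of_nonneg_left h3 hK00
      _ = (K0 * C * Fintype.card d) * E := by ring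
      _ ≤ (K0 * C * (Fintype.card d + 1)) * E := by
        refine mul_le_mul_of_nonneg_right ?_ hE0
        exact mul_le_mul_of_nonneg_left (by linarith) (by positivity)
  · rw [max_eq_right hED] at h1
    calc |n i (J q)| ≤ C := h _ _
      _ = C * 1 := (mul_one _).symm
      _ ≤ C * (K0 * E) := mul_le_mul_of_nonneg_left h1 hC0
      _ = (K0 * C * 1) * E := by ring
      _ ≤ (K0 * C * (Fintype.card d + 1)) * E := by
        refine mul_le_mul_of_nonneg_right ?_ hE0
        exact mul_le_mul_of_nonneg_left (by linarith) (by positivity)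

end Count

variable {L : Type} [LieRing L] [LieAlgebra ℝ L] {N : ℕ} {θ : L ≃ₗ⁅ℝ⁆ L} {b : Module.Basis (Fin N) ℝ L}
  {A : Submodule ℝ L} {ι : Type} [Fintype ι] {al : ι → Module.Dual ℝ A}

/-- The enumeration of a finite set of indices. -/
noncomputable def enu (S : Finset (Fin N)) : Fin S.card → Fin N := fun p => (S.equivFin.symm p : Fin N)

theorem enu_inj (S : Finset (Fin N)) : Function.Injective (enu S) := fun _ _ h => S.equivFin.symm.injective (Subtype.ext h)

theorem enu_mem (S : Finset (Fin N)) (k : Fin N) : k ∈ Set.range (enu S) ↔ k ∈ S := by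
  constructor
  · rintro ⟨p, rfl⟩
    exact (S.equivFin.symm p).2
  · intro h
    exact ⟨S.equivFin ⟨k, h⟩, by simp [enu]⟩

theorem enu_sum (S : Finset (Fin N)) (f : Fin N → ℝ) : ∑ p, f (enu S p) = ∑ k ∈ S, f k := by
  rw [← Finset.sum_coe_sort S f]
  exact Equiv.sum_comp S.equivFin.symm (fun k : S => f k)

namespace Wb

/-- The filtration steps. -/
def stp (W : Wb b A al) (l : ι) (c : ℤ) : Finset (Fin N) := Finset.univ.filter fun k => c ≤ W.cls k l

theorem mem_stp (W : Wb b A al) {l : ι} {c : ℤ} {k : Fin N} : k ∈ W.stp l c ↔ c ≤ W.cls k l := by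
  rw [stp, Finset.mem_filter]
  exact ⟨fun h => h.2, fun h => ⟨Finset.mem_univ _, h⟩⟩

theorem enu_stp (W : Wb b A al) (l : ι) (c : ℤ) (k : Fin N) : k ∈ Set.range (enu (W.stp l c)) ↔ c ≤ W.cls k l := by
  rw [enu_mem, W.mem_stp]

/-- The rate of the block triangular asymptotics. -/
theorem rate (W : Wb b A al) (h : CartanBasis θ b) (hl : LinearIndependent ℝ al) {l : ι} {i j : Fin N} (hij : W.cls i l < W.cls j l)
    {C : ℝ} (hC : 1 ≤ C) (Ct : ℝ) : ∃ K : ℝ, ∀ {q n : GL (Fin N) ℝ} {a a' : A}, q ∈ autC b → (∀ i j, |hat W.O (q : Mat N) i j| ≤ C) →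
      (∀ i j, |hat W.O (n : Mat N) i j| ≤ C) → (∀ i j, |hat W.O ((n⁻¹ : GL (Fin N) ℝ) : Mat N) i j| ≤ C) → (∀ i, 0 ≤ al i a) →
      (∀ i j, Real.exp (W.wt i a) * hat W.O (q : Mat N) i j = hat W.O (n : Mat N) i j * Real.exp (W.wt j a')) →
      ∑ k ∈ W.stp l (W.cls j l), W.wt k a ≤ ∑ k ∈ W.stp l (W.cls j l), W.wt k a' + Ct →
      |hat W.O (n : Mat N) i j| ≤ K * Real.exp (-al l a) := by
  classical
  obtain ⟨c, hc⟩ : ∃ c, c = W.cls j l := ⟨_, rfl⟩
  rw [← hc] at hij ⊢
  obtain ⟨J, hJd⟩ : ∃ J, J = enu (W.stp l c) := ⟨_, rfl⟩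
  have hJi : Function.Injective J := by rw [hJd]; exact enu_inj _
  have hJ : ∀ k, k ∈ Set.range J ↔ c ≤ W.cls k l := fun k => by rw [hJd]; exact W.enu_stp l c k
  obtain ⟨m, hm⟩ : ∃ m, m = (W.stp l c).card := ⟨_, rfl⟩
  obtain ⟨F0, hF0⟩ : ∃ F0 : ℝ, F0 = (m.factorial : ℝ) * C ^ m := ⟨_, rfl⟩
  have hF00 : 0 ≤ F0 := by rw [hF0]; positivity
  refine ⟨((N : ℝ) ^ m * C ^ m * C * (m + 1)) * (F0 * Real.exp Ct), fun {q n a a'} hq hqC hnC hnC' ha hrel ht => ?_⟩
  have htop : ∑ p, W.wt (J p) a ≤ ∑ p, W.wt (J p) a' + Ct := by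
    rw [hJd, enu_sum _ fun k => W.wt k a, enu_sum _ fun k => W.wt k a']
    exact ht
  have hn : hat W.O ((n⁻¹ : GL (Fin N) ℝ) : Mat N) * hat W.O (n : Mat N) = 1 := by
    rw [← hat_mul W.h2, ← Units.val_mul, inv_mul_cancel, Units.val_one, hat_one W.h1]
  obtain ⟨q0, hq0⟩ := (hJ j).2 (le_of_eq hc)
  have hi : i ∉ Set.range J := fun h1 => absurd ((hJ i).1 h1) (not_le.2 hij)
  have hdet : ∀ I : Fin (W.stp l c).card → Fin N, ((hat W.O (n : Mat N)).submatrix I J).det =
      Real.exp (∑ p, W.wt (I p) a - ∑ p, W.wt (J p) a') * ((hat W.O (q : Mat N)).submatrix I J).det := by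
    intro I
    have e1 : (hat W.O (n : Mat N)).submatrix I J = Matrix.of fun p r => Real.exp (W.wt (I p) a) *
        (Matrix.of fun p r => Real.exp (-W.wt (J r) a') * (hat W.O (q : Mat N)).submatrix I J p r) p r := by
      ext p r
      rw [Matrix.of_apply, Matrix.of_apply, Matrix.submatrix_apply, Matrix.submatrix_apply]
      have h1 := hrel (I p) (J r)
      have h2 : Real.exp (W.wt (J r) a') * Real.exp (-W.wt (J r) a') = 1 := by
        rw [← Real.exp_add, add_neg_cancel, Real.exp_zero]
      calc hat W.O (n : Mat N) (I p) (J r) = hat W.O (n : Mat N) (I p) (J r) * (Real.exp (W.wt (J r) a') * Real.exp (-W.wt (J r) a')) := by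
            rw [h2, mul_one]
        _ = (Real.exp (W.wt (I p) a) * hat W.O (q : Mat N) (I p) (J r)) * Real.exp (-W.wt (J r) a') := by
            rw [h1]
            ring
        _ = _ := by ring
    rw [e1, Matrix.det_mul_column, Matrix.det_mul_row, ← Real.exp_sum, ← Real.exp_sum, ← mul_assoc, ← Real.exp_add,
      Finset.sum_neg_distrib, sub_eq_add_neg]
  have hE : ∀ I : Fin (W.stp l c).card → Fin N, Function.Injective I → (∃ p, I p ∉ Set.range J) →
      |((hat W.O (n : Mat N)).submatrix I J).det| ≤ F0 * Real.exp Ct * Real.exp (-al l a) := by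
    intro I hIi hI
    rw [hdet, abs_mul, Real.abs_exp]
    by_cases h0 : ((hat W.O (q : Mat N)).submatrix I J).det = 0
    · rw [h0, abs_zero, mul_zero]
      positivity
    · have h1 : |((hat W.O (q : Mat N)).submatrix I J).det| ≤ F0 := by
        have h2 := Matrix.det_le (A := (hat W.O (q : Mat N)).submatrix I J) (abv := AbsoluteValue.abs) (x := C) (fun p r => hqC _ _)
        rw [Fintype.card_fin, nsmul_eq_mul] at h2
        rw [hF0, hm]
        exact h2
      have h3 : ∑ p, W.wt (I p) a ≤ ∑ p, W.wt (J p) a - al l a := by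
        have h4 := count_lt (f := fun k => W.cls k l) hJi hJ hIi hI
        have h5 : ∀ l', ∑ p, W.cls (I p) l' ≤ ∑ p, W.cls (J p) l' := fun l' => key h hl hJi hJ hq h0 l'
        rw [wt_sum, wt_sum, ← sub_nonneg, sub_sub, add_comm (al l a), ← sub_sub, ← Finset.sum_sub_distrib, sub_nonneg]
        rw [← Finset.add_sum_erase _ _ (Finset.mem_univ l)]
        have h6 : al l a ≤ ((∑ p, W.cls (J p) l : ℤ) : ℝ) * al l a - ((∑ p, W.cls (I p) l : ℤ) : ℝ) * al l a := by
          rw [← sub_mul]
          have h7 : (1 : ℝ) ≤ ((∑ p, W.cls (J p) l : ℤ) : ℝ) - ((∑ p, W.cls (I p) l : ℤ) : ℝ) := by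
            have h8 : ((1 : ℤ) : ℝ) ≤ ((∑ p, W.cls (J p) l - ∑ p, W.cls (I p) l : ℤ) : ℝ) := by
              exact_mod_cast (by omega : (1 : ℤ) ≤ ∑ p, W.cls (J p) l - ∑ p, W.cls (I p) l)
            push_cast at h8 ⊢
            exact h8
          nlinarith [ha l]
        have h7 : 0 ≤ ∑ l' ∈ Finset.univ.erase l, (((∑ p, W.cls (J p) l' : ℤ) : ℝ) * al l' a - ((∑ p, W.cls (I p) l' : ℤ) : ℝ) * al l' a) := by
          refine Finset.sum_nonneg fun l' _ => ?_
          rw [← sub_mul]
          refine mul_nonneg (sub_nonneg.2 ?_) (ha l')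
          exact_mod_cast h5 l'
        linarith
      calc Real.exp (∑ p, W.wt (I p) a - ∑ p, W.wt (J p) a') * |((hat W.O (q : Mat N)).submatrix I J).det|
          ≤ Real.exp (Ct + -al l a) * F0 := by
            refine mul_le_mul (Real.exp_le_exp.2 ?_) h1 (abs_nonneg _) (Real.exp_pos _).le
            linarith
        _ = F0 * Real.exp Ct * Real.exp (-al l a) := by
            rw [Real.exp_add]
            ring
  have h1 := entry_bd hn hC hnC hnC' hJi (E := F0 * Real.exp Ct * Real.exp (-al l a)) (by positivity) hE hi q0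
  rw [hq0, Fintype.card_fin, ← hm] at h1
  refine h1.trans (le_of_eq ?_)
  ring

end Wb

end Pool.Agent.Helper72.FQ
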