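import Pool.Agent.Helper96.SA.Exp

/-!
# Project FQ (MP_0f6f3f_an), target side, part Ten: tensor powers and minors

`RT g`: the action of the matrix `g` on the tensor power, `(RT g v) I = ∑ J, (∏ k, g (I k) (J k)) * v J`. `DT X`: the derivation of `X`. `PL M`: the minors of `M`, `PL (g * M) = RT g (PL M)`.
`RT (exp X)` preserves the subspaces which are stable under `DT X` (`RT_exp_mem`).
-/

set_option autoImplicit false
set_option linter.unusedSectionVars false

open Matrix NormedSpace

namespace Pool.Agent.Helper72.FQ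

variable {n : Type} [Fintype n] [DecidableEq n] {d : Type} [Fintype d] [DecidableEq d]

/-- The tensor power. -/
abbrev VT (d n : Type) : Type := (d → n) → ℝ

/-- The action on the tensor power. -/
def RT (g : Matrix n n ℝ) : VT d n →ₗ[ℝ] VT d n where
  toFun v I := ∑ J : d → n, (∏ k, g (I k) (J k)) * v J
  map_add' v w := by
    funext I
    simp only [Pi.add_apply, mul_add, Finset.sum_add_distrib]
  map_smul' c v := by
    funext I
    simp only [Pi.smul_apply, smul_eq_mul, RingHom.id_apply, Finset.mul_sum]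
    exact Finset.sum_congr rfl fun J _ => by ring

theorem RT_apply (g : Matrix n n ℝ) (v : VT d n) (I : d → n) : RT g v I = ∑ J : d → n, (∏ k, g (I k) (J k)) * v J := rfl

/-- One summand of the derivation. -/
def DK (k : d) (X : Matrix n n ℝ) : VT d n →ₗ[ℝ] VT d n where
  toFun v I := ∑ j, X (I k) j * v (Function.update I k j)
  map_add' v w := by
    funext I
    simp only [Pi.add_apply, mul_add, Finset.sum_add_distrib]
  map_smul' c v := by
    funext I
    simp only [Pi.smul_apply, smul_eq_mul, RingHom.id_apply, Finset.mul_sum]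
    exact Finset.sum_congr rfl fun J _ => by ring

theorem DK_apply (k : d) (X : Matrix n n ℝ) (v : VT d n) (I : d → n) :
    DK k X v I = ∑ j, X (I k) j * v (Function.update I k j) := rfl

/-- The derivation. -/
def DT (X : Matrix n n ℝ) : VT d n →ₗ[ℝ] VT d n := ∑ k, DK k X

theorem DT_apply (X : Matrix n n ℝ) (v : VT d n) (I : d → n) :
    DT X v I = ∑ k, ∑ j, X (I k) j * v (Function.update I k j) := by
  rw [DT, LinearMap.sum_apply, Finset.sum_apply]
  rfl

theorem DK_comm {k m : d} (hkm : k ≠ m) (X Y : Matrix n n ℝ) (v : VT d n) : DK k X (DK m Y v) = DK m Y (DK k X v) := by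
  funext I
  simp only [DK_apply, Finset.mul_sum]
  rw [Finset.sum_comm]
  refine Finset.sum_congr rfl fun i _ => Finset.sum_congr rfl fun j _ => ?_
  rw [Function.update_of_ne hkm.symm, Function.update_of_ne hkm, Function.update_comm hkm]
  ring

theorem DK_mul (k : d) (X Y : Matrix n n ℝ) (v : VT d n) : DK k X (DK k Y v) = DK k (X * Y) v := by
  funext I
  simp only [DK_apply, Finset.mul_sum, Matrix.mul_apply, Finset.sum_mul, Function.update_self, Function.update_idem]
  rw [Finset.sum_comm]
  exact Finset.sum_congr rfl fun i _ => Finset.sum_congr rfl fun j _ => by ring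

theorem DK_sub (k : d) (X Y : Matrix n n ℝ) (v : VT d n) : DK k (X - Y) v = DK k X v - DK k Y v := by
  funext I
  simp only [DK_apply, Pi.sub_apply, Matrix.sub_apply, sub_mul, Finset.sum_sub_distrib]

theorem DT_add (X Y : Matrix n n ℝ) (v : VT d n) : DT (X + Y) v = DT X v + DT Y v := by
  funext I
  simp only [DT_apply, Pi.add_apply, Matrix.add_apply, add_mul, Finset.sum_add_distrib]

theorem DT_smul (c : ℝ) (X : Matrix n n ℝ) (v : VT d n) : DT (c • X) v = c • DT X v := by
  funext I
  simp only [DT_apply, Pi.smul_apply, Matrix.smul_apply, smul_eq_mul, Finset.mul_sum]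
  exact Finset.sum_congr rfl fun i _ => Finset.sum_congr rfl fun j _ => by ring

theorem DT_zero (v : VT d n) : DT (0 : Matrix n n ℝ) v = 0 := by
  funext I
  simp only [DT_apply, Pi.zero_apply, Matrix.zero_apply, zero_mul, Finset.sum_const_zero]

/-- The derivations form a representation. -/
theorem DT_lie (X Y : Matrix n n ℝ) (v : VT d n) : DT (X * Y - Y * X) v = DT X (DT Y v) - DT Y (DT X v) := by
  have h : ∀ k m : d, DK k X (DK m Y v) - DK m Y (DK k X v) = if k = m then DK k (X * Y - Y * X) v else 0 := by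
    intro k m
    split_ifs with hkm
    · subst hkm
      rw [DK_mul, DK_mul, DK_sub]
    · rw [DK_comm hkm, sub_self]
  have h1 : DT X (DT Y v) = ∑ k, ∑ m, DK k X (DK m Y v) := by
    simp only [DT, LinearMap.sum_apply, map_sum]
    exact Finset.sum_comm
  have h2 : DT Y (DT X v) = ∑ k, ∑ m, DK m Y (DK k X v) := by
    simp only [DT, LinearMap.sum_apply, map_sum]
  rw [h1, h2, ← Finset.sum_sub_distrib]
  simp only [← Finset.sum_sub_distrib, h, Finset.sum_ite_eq, Finset.mem_univ, if_true]
  rw [DT, LinearMap.sum_apply]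

theorem RT_mul (g h : Matrix n n ℝ) (v : VT d n) : RT (g * h) v = RT g (RT h v) := by
  funext I
  simp only [RT_apply, Finset.mul_sum]
  rw [Finset.sum_comm]
  refine Finset.sum_congr rfl fun J _ => ?_
  have h1 : ∏ k, (g * h) (I k) (J k) = ∑ K : d → n, ∏ k, g (I k) (K k) * h (K k) (J k) := by
    simp only [Matrix.mul_apply]
    rw [Finset.prod_univ_sum]
    rw [Fintype.piFinset_univ]
  rw [h1, Finset.sum_mul]
  refine Finset.sum_congr rfl fun K _ => ?_
  rw [Finset.prod_mul_distrib]
  ring

theorem RT_one (v : VT d n) : RT (1 : Matrix n n ℝ) v = v := by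
  funext I
  rw [RT_apply, Finset.sum_eq_single I]
  · simp
  · intro J _ hJ
    obtain ⟨k, hk⟩ := Function.ne_iff.1 hJ
    rw [Finset.prod_eq_zero (Finset.mem_univ k) (by rw [Matrix.one_apply_ne hk.symm]), zero_mul]
  · intro h
    exact absurd (Finset.mem_univ _) h

/-- The minors. -/
def PL (M : Matrix n d ℝ) : VT d n := fun I => (M.submatrix I id).det

theorem PL_apply (M : Matrix n d ℝ) (I : d → n) : PL M I = (M.submatrix I id).det := rfl

theorem PL_mul (g : Matrix n n ℝ) (M : Matrix n d ℝ) : PL (g * M) = RT g (PL M) := by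
  funext I
  rw [PL_apply, RT_apply]
  have h1 : (g * M).submatrix I id = fun k => ∑ j, g (I k) j • (fun q => M j q) := by
    funext k q
    simp [Matrix.mul_apply, Finset.sum_apply]
  have h2 : ∀ A : Matrix d d ℝ, A.det = Matrix.detRowAlternating A := fun A => rfl
  rw [h2, h1]
  have h3 := (Matrix.detRowAlternating (n := d) (R := ℝ)).toMultilinearMap.map_sum (fun k j => g (I k) j • (fun q => M j q))
  change (Matrix.detRowAlternating (n := d) (R := ℝ)).toMultilinearMap (fun k => ∑ j, g (I k) j • fun q => M j q) = _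
  rw [h3]
  refine Finset.sum_congr rfl fun J _ => ?_
  have h4 := (Matrix.detRowAlternating (n := d) (R := ℝ)).toMultilinearMap.map_smul_univ (fun k => g (I k) (J k)) (fun k q => M (J k) q)
  rw [h4, smul_eq_mul]
  rfl

section Exp

open Pool.Agent.Helper96.SA

variable {N : ℕ}

theorem prod_update (e : Matrix n n ℝ) (I J : d → n) (k : d) (j : n) :
    ∏ m, e (Function.update I k j m) (J m) = e j (J k) * ∏ m ∈ Finset.univ.erase k, e (I m) (J m) := by
  rw [← Finset.mul_prod_erase Finset.univ _ (Finset.mem_univ k), Function.update_self]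
  congr 1
  refine Finset.prod_congr rfl fun m hm => ?_
  rw [Function.update_of_ne (Finset.ne_of_mem_erase hm)]

theorem DT_RT (X e : Matrix n n ℝ) (v : VT d n) (I : d → n) : DT X (RT e v) I =
    ∑ J : d → n, (∑ k, (∏ m ∈ Finset.univ.erase k, e (I m) (J m)) * (X * e) (I k) (J k)) * v J := by
  rw [DT_apply]
  simp only [RT_apply, prod_update, Finset.mul_sum, Finset.sum_mul, Matrix.mul_apply]
  rw [Finset.sum_comm' (t' := Finset.univ) (s' := fun _ => Finset.univ) (by simp)]
  rw [Finset.sum_comm]
  simp only [Finset.sum_comm (s := (Finset.univ : Finset n)) (t := (Finset.univ : Finset (d → n)))]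
  rw [Finset.sum_comm]
  refine Finset.sum_congr rfl fun J _ => Finset.sum_congr rfl fun k _ => Finset.sum_congr rfl fun j _ => by ring

theorem hasDerivAt_RT (X : Mat N) (v : VT d (Fin N)) (t : ℝ) (I : d → Fin N) :
    HasDerivAt (fun t : ℝ => RT (exp (t • X)) v I) (DT X (RT (exp (t • X)) v) I) t := by
  rw [DT_RT]
  simp only [RT_apply]
  refine HasDerivAt.fun_sum fun J _ => HasDerivAt.mul_const ?_ _
  have h := HasDerivAt.fun_finsetProd (u := Finset.univ) (f := fun k (t : ℝ) => exp (t • X) (I k) (J k))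
    (f' := fun k => (X * exp (t • X)) (I k) (J k)) (x := t) (fun k _ => hasDerivAt_exp X t (I k) (J k))
  simpa only [smul_eq_mul] using h

theorem exp_clm_mem {V : Type} [NormedAddCommGroup V] [NormedSpace ℝ V] [FiniteDimensional ℝ V] (D : V →L[ℝ] V)
    (U : Submodule ℝ V) (hU : ∀ u ∈ U, D u ∈ U) {v : V} (hv : v ∈ U) : exp D v ∈ U := by
  have hcl : IsClosed (U : Set V) := U.closed_of_finiteDimensional
  have h1 : HasSum (fun k : ℕ => ((k.factorial : ℝ)⁻¹) • D ^ k) (exp D) := NormedSpace.exp_series_hasSum_exp' (𝕂 := ℝ) D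
  have h2 : HasSum (fun k : ℕ => (((k.factorial : ℝ)⁻¹) • D ^ k) v) (exp D v) := by
    have := h1.mapL (ContinuousLinearMap.apply ℝ V v)
    exact this
  have hpow : ∀ k : ℕ, (D ^ k) v ∈ U := by
    intro k
    induction k with
    | zero => simpa using hv
    | succ k ih =>
      rw [pow_succ']
      exact hU _ ih
  refine hcl.mem_of_tendsto h2 (Filter.Eventually.of_forall fun s => ?_)
  exact U.sum_mem fun k _ => U.smul_mem _ (hpow k)

theorem RT_exp_eq (X : Mat N) (v : VT d (Fin N)) (t : ℝ) :
    RT (exp (t • X)) v = exp (t • LinearMap.toContinuousLinearMap (DT (d := d) X)) v := by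
  obtain ⟨D, hD⟩ : ∃ D, D = LinearMap.toContinuousLinearMap (DT (d := d) X) := ⟨_, rfl⟩
  rw [← hD]
  have hDa : ∀ w, D w = DT X w := fun w => by rw [hD]; rfl
  have h0 : ∀ t : ℝ, HasDerivAt (fun t : ℝ => RT (exp (t • X)) v) (D (RT (exp (t • X)) v)) t := by
    intro t
    rw [hasDerivAt_pi]
    intro I
    rw [hDa]
    exact hasDerivAt_RT X v t I
  have h1 : ∀ t : ℝ, HasDerivAt (fun t : ℝ => exp (t • (-D)) (RT (exp (t • X)) v)) 0 t := by
    intro t
    have h2 : HasDerivAt (fun t : ℝ => exp (t • (-D))) (exp (t • (-D)) * (-D)) t := hasDerivAt_exp_smul_const (-D) t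
    have h3 := h2.clm_apply (h0 t)
    have e : (exp (t • (-D)) * (-D)) (RT (exp (t • X)) v) + exp (t • (-D)) (D (RT (exp (t • X)) v)) = 0 := by
      rw [mul_apply_eq_comp, _root_.neg_apply, map_neg, neg_add_cancel]
    rw [e] at h3
    exact h3
  have h3 : exp (t • (-D)) (RT (exp (t • X)) v) = v := by
    have h4 := is_const_of_deriv_eq_zero (f := fun t : ℝ => exp (t • (-D)) (RT (exp (t • X)) v))
      (fun t => (h1 t).differentiableAt) (fun t => (h1 t).deriv) t 0
    have h4 : exp (t • (-D)) (RT (exp (t • X)) v) = exp ((0 : ℝ) • (-D)) (RT (exp ((0 : ℝ) • X)) v) := h4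
    rw [h4, zero_smul, zero_smul, exp_zero, exp_zero, RT_one]
    rfl
  have h5 : exp (t • D) * exp (t • (-D)) = 1 := by
    let _ : NormedAlgebra ℚ (VT d (Fin N) →L[ℝ] VT d (Fin N)) := NormedAlgebra.restrictScalars ℚ ℝ _
    rw [smul_neg, ← NormedSpace.exp_add_of_commute ((Commute.refl (t • D)).neg_right), add_neg_cancel, exp_zero]
  calc RT (exp (t • X)) v = (exp (t • D) * exp (t • (-D))) (RT (exp (t • X)) v) := by rw [h5]; rfl
    _ = exp (t • D) (exp (t • (-D)) (RT (exp (t • X)) v)) := rfl
    _ = _ := by rw [h3]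

/-- The action of `exp X` preserves the subspaces which are stable under the derivation of `X`. -/
theorem RT_exp_mem (X : Mat N) (U : Submodule ℝ (VT d (Fin N))) (hU : ∀ u ∈ U, DT X u ∈ U) {v : VT d (Fin N)} (hv : v ∈ U) :
    RT (exp X) v ∈ U := by
  have h := RT_exp_eq X v 1
  rw [one_smul, one_smul] at h
  rw [h]
  exact exp_clm_mem _ U hU hv

end Exp

end Pool.Agent.Helper72.FQ
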