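import Pool.Agent.Helper72.FQ.Rate

/-!
# Project FQ (MP_0f6f3f_an), target side, part Top: the highest weights of the filtration steps

`W.tpw l = ∑ k ∈ W.stp l 1, W.wt k`: the weight of the top exterior power of the nilradical of the node `l`. `tpw_off`: it vanishes at `⁅e, θ e⁆`, `e` in the root space of `al j`, `j ≠ l`; `tpw_on`: it is negative there for `j = l`.
`al_mem`: the simple roots are linear combinations of the `W.tpw l`.
-/

set_option autoImplicit false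
set_option linter.unusedSectionVars false

open Matrix NormedSpace

namespace Pool.Agent.Helper72.FQ

open Pool.Agent.Helper96.SA Pool.Agent.Helper96.TO Pool.Agent.Helper35.TZ

variable {L : Type} [LieRing L] [LieAlgebra ℝ L] {N : ℕ} {θ : L ≃ₗ⁅ℝ⁆ L} {b : Module.Basis (Fin N) ℝ L}
  {A : Submodule ℝ L} {ι : Type} [Fintype ι] {al : ι → Module.Dual ℝ A}

/-- The bracket of a root vector and its image under the Cartan involution is in the flat. -/
theorem TD.lie_mem (T : TD θ b A al) {φ : Module.Dual ℝ A} {e : L} (he : ∀ a : A, ⁅(a : L), e⁆ = φ a • e) : ⁅e, θ e⁆ ∈ A := by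
  have hθ : ∀ a : A, ⁅(a : L), θ e⁆ = -(φ a • θ e) := by
    intro a
    have h1 : ⁅θ (a : L), θ e⁆ = φ a • θ e := by rw [← LieEquiv.map_lie, he, map_smul]
    rw [T.hA.neg a a.2, neg_lie] at h1
    rw [← h1, neg_neg]
  refine T.hA.max _ ?_ fun y hy => ?_
  · rw [LieEquiv.map_lie, T.h.invol, ← lie_skew]
  · rw [← lie_skew, leibniz_lie, he ⟨y, hy⟩, hθ ⟨y, hy⟩, smul_lie, lie_neg, lie_smul, add_neg_cancel, neg_zero]

namespace Wb

variable (W : Wb b A al)

/-- The highest weight of the node `l`. -/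
noncomputable def tpw (l : ι) : Module.Dual ℝ A := ∑ k ∈ W.stp l 1, W.wt k

theorem tpw_apply (l : ι) (a : A) : W.tpw l a = ∑ k ∈ W.stp l 1, W.wt k a := by
  rw [tpw, LinearMap.sum_apply]

variable {W}

theorem hat_neg (O X : Mat N) : hat O (-X) = -hat O X := by
  unfold hat
  rw [Matrix.mul_neg, Matrix.neg_mul]

/-- The matrix of `θ e`. -/
theorem hat_theta (T : TD θ b A al) (e : L) : hat W.O (TT_to b (θ e)) = -(hat W.O (TT_to b e))ᵀ := by
  rw [hat_transpose, TT_transpose_to T.h, hat_neg, neg_neg]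

/-- The trace of `⁅e, θ e⁆` on a set of weights. -/
theorem sum_lie (T : TD θ b A al) {e : L} (h : ⁅e, θ e⁆ ∈ A) (S : Finset (Fin N)) :
    ∑ k ∈ S, W.wt k ⟨⁅e, θ e⁆, h⟩ = ∑ i ∈ S, ∑ k, (hat W.O (TT_to b e) k i ^ 2 - hat W.O (TT_to b e) i k ^ 2) := by
  refine Finset.sum_congr rfl fun i _ => ?_
  have h1 := W.hat_A ⟨⁅e, θ e⁆, h⟩
  have h2 := congrFun (congrFun h1 i) i
  rw [Matrix.diagonal_apply_eq] at h2
  rw [← h2]
  change hat W.O (TT_to b ⁅e, θ e⁆) i i = _
  rw [TT_lie_to, hat_sub, hat_mul W.h2, hat_mul W.h2, hat_theta T, Matrix.mul_neg, Matrix.neg_mul, sub_neg_eq_add, Matrix.add_apply,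
    Matrix.neg_apply, Matrix.mul_apply, Matrix.mul_apply, ← Finset.sum_neg_distrib, ← Finset.sum_add_distrib]
  refine Finset.sum_congr rfl fun k _ => ?_
  rw [Matrix.transpose_apply, Matrix.transpose_apply]
  ring

theorem al_single [DecidableEq ι] (j : ι) : al j = ∑ l, (((if l = j then 1 else 0 : ℤ) : ℤ) : ℝ) • al l := by
  rw [Finset.sum_eq_single j]
  · rw [if_pos rfl, Int.cast_one, one_smul]
  · intro l _ hl
    rw [if_neg hl, Int.cast_zero, zero_smul]
  · intro h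
    exact absurd (Finset.mem_univ _) h

/-- The support of the matrix of a vector of the root space of `al j`. -/
theorem supp_al [DecidableEq ι] (hl : LinearIndependent ℝ al) {j : ι} {e : L} (he : ∀ a : A, ⁅(a : L), e⁆ = al j a • e) {i k : Fin N}
    (h : hat W.O (TT_to b e) i k ≠ 0) (l : ι) : W.cls i l = W.cls k l + if l = j then 1 else 0 := by
  have h1 := W.hat_supp he h
  rw [al_single (al := al) j] at h1
  exact W.cls_eq hl h1 l

theorem tpw_off (T : TD θ b A al) {j l : ι} (hjl : j ≠ l) {e : L} (he : ∀ a : A, ⁅(a : L), e⁆ = al j a • e) (h : ⁅e, θ e⁆ ∈ A) :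
    W.tpw l ⟨⁅e, θ e⁆, h⟩ = 0 := by
  classical
  rw [tpw_apply, sum_lie T]
  have h1 : ∀ i k, hat W.O (TT_to b e) i k ≠ 0 → W.cls i l = W.cls k l := fun i k hik => by
    have := supp_al T.li he hik l
    rw [if_neg hjl.symm, add_zero] at this
    exact this
  have h2 : ∀ i ∈ W.stp l 1, ∑ k, (hat W.O (TT_to b e) k i ^ 2 - hat W.O (TT_to b e) i k ^ 2) =
      ∑ k ∈ W.stp l 1, (hat W.O (TT_to b e) k i ^ 2 - hat W.O (TT_to b e) i k ^ 2) := by
    intro i hi
    symm
    refine Finset.sum_subset (Finset.subset_univ _) fun k _ hk => ?_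
    have e1 : hat W.O (TT_to b e) k i = 0 := by
      by_contra h3
      exact hk (W.mem_stp.2 (by rw [h1 _ _ h3]; exact W.mem_stp.1 hi))
    have e2 : hat W.O (TT_to b e) i k = 0 := by
      by_contra h3
      exact hk (W.mem_stp.2 (by rw [← h1 _ _ h3]; exact W.mem_stp.1 hi))
    rw [e1, e2]
    ring
  rw [Finset.sum_congr rfl h2]
  simp only [Finset.sum_sub_distrib]
  rw [Finset.sum_comm, sub_self]

/-- The coordinates of a weight vector. -/
theorem coord_supp {φ : Module.Dual ℝ A} {x : L} (hx : ∀ a : A, ⁅(a : L), x⁆ = φ a • x) {k : Fin N}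
    (h : (W.Oᵀ *ᵥ b.equivFun x) k ≠ 0) : W.wt k = φ := by
  refine LinearMap.ext fun a => ?_
  have h1 : W.Oᵀ *ᵥ b.equivFun ⁅(a : L), x⁆ = fun k => W.wt k a * (W.Oᵀ *ᵥ b.equivFun x) k := by
    rw [← toLin_TT_to, toLin_coord, W.dg, ← Matrix.mulVec_mulVec, ← Matrix.mulVec_mulVec, Matrix.mulVec_mulVec _ W.Oᵀ W.O, W.h1,
      Matrix.one_mulVec]
    funext k
    rw [Matrix.mulVec_diagonal]
  rw [hx, map_smul, Matrix.mulVec_smul] at h1
  have h2 := congrFun h1 k
  rw [Pi.smul_apply, smul_eq_mul] at h2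
  exact (mul_right_cancel₀ h h2).symm

theorem coord_ne (b : Module.Basis (Fin N) ℝ L) (W : Wb b A al) {x : L} (hx : x ≠ 0) : ∃ k, (W.Oᵀ *ᵥ b.equivFun x) k ≠ 0 := by
  by_contra hcon
  push Not at hcon
  apply hx
  have h1 : W.Oᵀ *ᵥ b.equivFun x = 0 := funext hcon
  have h2 : b.equivFun x = 0 := by
    have h3 : W.O *ᵥ (W.Oᵀ *ᵥ b.equivFun x) = b.equivFun x := by rw [Matrix.mulVec_mulVec, W.h2, Matrix.one_mulVec]
    rw [← h3, h1, Matrix.mulVec_zero]
  exact b.equivFun.injective (by rw [h2, map_zero])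

theorem tpw_on (T : TD θ b A al) {j : ι} {e : L} (he0 : e ≠ 0) (he : ∀ a : A, ⁅(a : L), e⁆ = al j a • e) (h : ⁅e, θ e⁆ ∈ A) :
    W.tpw j ⟨⁅e, θ e⁆, h⟩ < 0 := by
  classical
  rw [tpw_apply, sum_lie T]
  have h1 : ∀ i k, hat W.O (TT_to b e) i k ≠ 0 → W.cls i j = W.cls k j + 1 := fun i k hik => by
    have := supp_al T.li he hik j
    rw [if_pos rfl] at this
    exact this
  -- the entry from the flat to the root vector
  obtain ⟨i0, k0, hi0, hk0, hik0⟩ : ∃ i k, W.cls i j = 1 ∧ W.cls k j = 0 ∧ hat W.O (TT_to b e) i k ≠ 0 := by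
    obtain ⟨a, ha⟩ : ∃ a : A, al j a ≠ 0 := by
      by_contra hcon
      push Not at hcon
      exact (T.rt j).1 (LinearMap.ext hcon)
    obtain ⟨i, hi⟩ := coord_ne b W he0
    have hwi := coord_supp he hi
    have h2 : ⁅e, (a : L)⁆ = -(al j a • e) := by rw [← lie_skew, he]
    have h3 : W.Oᵀ *ᵥ b.equivFun ⁅e, (a : L)⁆ = hat W.O (TT_to b e) *ᵥ (W.Oᵀ *ᵥ b.equivFun (a : L)) := by
      rw [← toLin_TT_to, toLin_coord]
      unfold hat
      rw [Matrix.mulVec_mulVec, Matrix.mulVec_mulVec, Matrix.mul_assoc (W.Oᵀ * TT_to b e), W.h2, Matrix.mul_one]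
    rw [h2, map_neg, map_smul, Matrix.mulVec_neg, Matrix.mulVec_smul] at h3
    have h4 := congrFun h3 i
    have h5 : (hat W.O (TT_to b e) *ᵥ (W.Oᵀ *ᵥ b.equivFun (a : L))) i ≠ 0 := by
      rw [← h4, Pi.neg_apply, Pi.smul_apply, smul_eq_mul]
      exact neg_ne_zero.2 (mul_ne_zero ha hi)
    have h5' : ∑ k, hat W.O (TT_to b e) i k * (W.Oᵀ *ᵥ b.equivFun (a : L)) k ≠ 0 := h5
    obtain ⟨k, -, hk⟩ := Finset.exists_ne_zero_of_sum_ne_zero h5'
    have hk1 := left_ne_zero_of_mul hk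
    have hk2 := right_ne_zero_of_mul hk
    have hwk : W.wt k = 0 := by
      refine coord_supp (x := (a : L)) (fun c => ?_) hk2
      rw [T.hA.abel c c.2 a a.2, LinearMap.zero_apply, zero_smul]
    have hck : W.cls k j = 0 := by
      have h6 : ∑ l, (W.cls k l : ℝ) • al l = 0 := by rw [← W.eq k, hwk]
      have := Fintype.linearIndependent_iff.1 T.li _ h6 j
      exact_mod_cast this
    refine ⟨i, k, ?_, hck, hk1⟩
    rw [h1 i k hk1, hck]
    rfl
  -- the sum
  have hi0S : i0 ∈ W.stp j 1 := W.mem_stp.2 (by rw [hi0])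
  have hk0S : k0 ∉ W.stp j 1 := fun h3 => by
    have := W.mem_stp.1 h3
    omega
  have h2 : ∑ i ∈ W.stp j 1, ∑ k, (hat W.O (TT_to b e) k i ^ 2 - hat W.O (TT_to b e) i k ^ 2) =
      ∑ i ∈ W.stp j 1, ∑ k ∈ (W.stp j 1)ᶜ, -(hat W.O (TT_to b e) i k ^ 2) := by
    have e1 : ∀ i ∈ W.stp j 1, ∑ k, (hat W.O (TT_to b e) k i ^ 2 - hat W.O (TT_to b e) i k ^ 2) =
        ∑ k ∈ W.stp j 1, (hat W.O (TT_to b e) k i ^ 2 - hat W.O (TT_to b e) i k ^ 2) +
          ∑ k ∈ (W.stp j 1)ᶜ, -(hat W.O (TT_to b e) i k ^ 2) := by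
      intro i hi
      rw [← Finset.sum_add_sum_compl (W.stp j 1)]
      congr 1
      refine Finset.sum_congr rfl fun k hk => ?_
      have e2 : hat W.O (TT_to b e) k i = 0 := by
        by_contra h3
        have h4 := h1 _ _ h3
        have h5 := W.mem_stp.1 hi
        exact (Finset.mem_compl.1 hk) (W.mem_stp.2 (by omega))
      rw [e2]
      ring
    rw [Finset.sum_congr rfl e1, Finset.sum_add_distrib]
    have e3 : ∑ i ∈ W.stp j 1, ∑ k ∈ W.stp j 1, (hat W.O (TT_to b e) k i ^ 2 - hat W.O (TT_to b e) i k ^ 2) = 0 := by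
      simp only [Finset.sum_sub_distrib]
      rw [Finset.sum_comm, sub_self]
    rw [e3, zero_add]
  rw [h2]
  have h3 : ∀ i ∈ W.stp j 1, ∑ k ∈ (W.stp j 1)ᶜ, -(hat W.O (TT_to b e) i k ^ 2) ≤ 0 := fun i _ =>
    Finset.sum_nonpos fun k _ => neg_nonpos.2 (sq_nonneg _)
  rw [← Finset.add_sum_erase _ _ hi0S, ← Finset.add_sum_erase _ _ (Finset.mem_compl.2 hk0S)]
  have h4 : ∑ k ∈ (W.stp j 1)ᶜ.erase k0, -(hat W.O (TT_to b e) i0 k ^ 2) ≤ 0 :=
    Finset.sum_nonpos fun k _ => neg_nonpos.2 (sq_nonneg _)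
  have h5 : ∑ i ∈ (W.stp j 1).erase i0, ∑ k ∈ (W.stp j 1)ᶜ, -(hat W.O (TT_to b e) i k ^ 2) ≤ 0 :=
    Finset.sum_nonpos fun i hi => h3 i (Finset.mem_of_mem_erase hi)
  have h6 : 0 < hat W.O (TT_to b e) i0 k0 ^ 2 := by positivity
  linarith

/-- The highest weights are linearly independent. -/
theorem tpw_li (T : TD θ b A al) (W : Wb b A al) : LinearIndependent ℝ W.tpw := by
  classical
  rw [Fintype.linearIndependent_iff]
  intro c hc j
  obtain ⟨-, e, he0, he⟩ := T.rt j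
  have h := T.lie_mem he
  have h1 := LinearMap.congr_fun hc ⟨⁅e, θ e⁆, h⟩
  rw [LinearMap.sum_apply, LinearMap.zero_apply, Finset.sum_eq_single j] at h1
  · rw [LinearMap.smul_apply, smul_eq_mul] at h1
    exact (mul_eq_zero.1 h1).resolve_right (tpw_on T he0 he h).ne
  · intro l _ hl
    rw [LinearMap.smul_apply, tpw_off T hl.symm he h, smul_zero]
  · intro h
    exact absurd (Finset.mem_univ _) h

/-- The simple roots are linear combinations of the highest weights. -/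
theorem al_mem (T : TD θ b A al) (W : Wb b A al) (j : ι) : ∃ c : ι → ℝ, al j = ∑ l, c l • W.tpw l := by
  classical
  have h1 : Submodule.span ℝ (Set.range W.tpw) ≤ Submodule.span ℝ (Set.range al) := by
    rw [Submodule.span_le]
    rintro _ ⟨l, rfl⟩
    refine Submodule.sum_mem _ fun k _ => ?_
    rw [W.eq]
    exact Submodule.sum_mem _ fun l _ => Submodule.smul_mem _ _ (Submodule.subset_span ⟨l, rfl⟩)
  have h2 : Submodule.span ℝ (Set.range W.tpw) = Submodule.span ℝ (Set.range al) := by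
    have : FiniteDimensional ℝ (Submodule.span ℝ (Set.range al)) := FiniteDimensional.span_of_finite ℝ (Set.finite_range al)
    refine Submodule.eq_of_le_of_finrank_eq h1 ?_
    rw [finrank_span_eq_card (tpw_li T W), finrank_span_eq_card T.li]
  have h3 : al j ∈ Submodule.span ℝ (Set.range W.tpw) := by
    rw [h2]
    exact Submodule.subset_span ⟨j, rfl⟩
  obtain ⟨c, hc⟩ := (Submodule.mem_span_range_iff_exists_fun ℝ).1 h3
  exact ⟨c, hc.symm⟩

end Wb

end Pool.Agent.Helper72.FQ
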